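import Pool.Agent.H367R2.PE.Defs

set_option autoImplicit false

namespace H367PE

theorem asm_fin (x A Bq N1 N2 P R n1 m1 n2 m2 : ℚ) (hR : R ≠ 0) (hA : A = N1 + 2 * N2)
    (hB : Bq = 8 * N1 + 9 * N2) (hN1 : N1 = 9 * (n1 ^ 2 + 3 * m1 ^ 2))
    (hN2 : N2 = n2 ^ 2 + 3 * m2 ^ 2) (hP : P ^ 2 + 3 * x * R ^ 2 = A * Bq) : TX x := by
  refine ⟨(A + Bq / 6) / (2 * R), (Bq / 6 - A) / (2 * R), P / R,
    21 / R * (n1 * n2 - 3 * m1 * m2), 21 / R * (n1 * m2 + m1 * n2), ?_, ?_⟩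
  · have e : P ^ 2 = A * Bq - 3 * x * R ^ 2 := by linarith
    have h1 : (P / R) ^ 2 + 3 * x = A * Bq / R ^ 2 := by
      rw [div_pow, e]; field_simp; ring
    rw [h1]
    field_simp
    ring
  · subst hA hB hN1 hN2
    field_simp
    ring

theorem asm_q (x t l u v a b c g X1 Y1 Z1 X2 Y2 Z2 : ℚ) (hx : 0 < x) (ht : 0 < t) (hv : v ≠ 0)
    (hl : l = 9 * u ^ 2 + 2 * v ^ 2) (hg : g ≠ 0) (hX : a ^ 2 + 6 * b ^ 2 + 18 * c ^ 2 = x * g ^ 2)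
    (hY1 : Y1 ≠ 0)
    (h1 : Z1 ^ 2 + ((8 * u ^ 2 + v ^ 2) * (24 * u ^ 2 * a ^ 2 + 81 * u ^ 2 * b ^ 2 +
      243 * u ^ 2 * c ^ 2 + 3 * v ^ 2 * a ^ 2 + 32 * v ^ 2 * b ^ 2 + 96 * v ^ 2 * c ^ 2 -
      42 * u * v * a * c) - (7 * u * v * b) ^ 2) * X1 ^ 2 = (8 * u ^ 2 + v ^ 2) * t * Y1 ^ 2)
    (hY2 : Y2 ≠ 0) (h2 : Z2 ^ 2 + 3 * x * X2 ^ 2 = l * t * Y2 ^ 2) : TX x := by
  obtain ⟨al, hal⟩ : ∃ al, al = 8 * u ^ 2 + v ^ 2 := ⟨_, rfl⟩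
  obtain ⟨rho, hrho⟩ : ∃ rho, rho = 7 * u * v * b := ⟨_, rfl⟩
  obtain ⟨del, hdel⟩ : ∃ del, del = 24 * u ^ 2 * a ^ 2 + 81 * u ^ 2 * b ^ 2 +
      243 * u ^ 2 * c ^ 2 + 3 * v ^ 2 * a ^ 2 + 32 * v ^ 2 * b ^ 2 + 96 * v ^ 2 * c ^ 2 -
      42 * u * v * a * c := ⟨_, rfl⟩
  rw [← hal, ← hrho, ← hdel] at h1
  have hv2 : 0 < v ^ 2 := by positivity
  have hal0 : 0 < al := by rw [hal]; positivity
  have hl0 : 0 < l := by rw [hl]; positivity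
  obtain ⟨r, hr⟩ : ∃ r, r = (Z1 + rho * X1) / al := ⟨_, rfl⟩
  have hr' : al * r = Z1 + rho * X1 := by rw [hr]; field_simp
  -- (1)
  have q1 : al * r ^ 2 - 2 * rho * r * X1 + del * X1 ^ 2 = t * Y1 ^ 2 := by
    have h3 : al * (al * r ^ 2 - 2 * rho * r * X1 + del * X1 ^ 2) = al * (t * Y1 ^ 2) := by
      linear_combination (al * r - rho * X1 + Z1) * hr' + h1 - 2 * rho * X1 * hr' + 2 * rho * X1 * hr'
    exact mul_left_cancel₀ hal0.ne' h3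
  have ht1 : 0 < t * Y1 ^ 2 := by positivity
  have hrs : r ≠ 0 ∨ X1 ≠ 0 := by
    by_contra hc
    push Not at hc
    rw [hc.1, hc.2] at q1
    simp at q1
    rcases q1 with h | h
    · exact absurd h ht.ne'
    · exact hY1 h
  -- N1, N2
  obtain ⟨n1, hn1⟩ : ∃ n1, n1 = u * r - 2 * v * b * X1 := ⟨_, rfl⟩
  obtain ⟨m1, hm1⟩ : ∃ m1, m1 = X1 * (u * a - 2 * v * c) := ⟨_, rfl⟩
  obtain ⟨n2, hn2⟩ : ∃ n2, n2 = r * v + 9 * u * b * X1 := ⟨_, rfl⟩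
  obtain ⟨m2, hm2⟩ : ∃ m2, m2 = X1 * (a * v + 9 * u * c) := ⟨_, rfl⟩
  obtain ⟨N1, hN1⟩ : ∃ N1, N1 = 9 * (n1 ^ 2 + 3 * m1 ^ 2) := ⟨_, rfl⟩
  obtain ⟨N2, hN2⟩ : ∃ N2, N2 = n2 ^ 2 + 3 * m2 ^ 2 := ⟨_, rfl⟩
  have eA : N1 + 2 * N2 = l * (r ^ 2 + 3 * x * (g * X1) ^ 2) := by
    have : l * (r ^ 2 + 3 * x * (g * X1) ^ 2) = l * (r ^ 2 + 3 * (x * g ^ 2) * X1 ^ 2) := by ring
    rw [this, ← hX, hN1, hN2, hn1, hm1, hn2, hm2, hl]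
    ring
  have eB : 8 * N1 + 9 * N2 = 9 * t * Y1 ^ 2 := by
    have : 8 * N1 + 9 * N2 = 9 * (al * r ^ 2 - 2 * rho * r * X1 + del * X1 ^ 2) := by
      rw [hN1, hN2, hn1, hm1, hn2, hm2, hal, hrho, hdel]
      ring
    rw [this, q1]; ring
  have hAB : 0 < (N1 + 2 * N2) * (8 * N1 + 9 * N2) := by
    rw [eA, eB]
    have : 0 < r ^ 2 + 3 * x * (g * X1) ^ 2 := by
      rcases hrs with h | h
      · positivity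
      · positivity
    positivity
  obtain ⟨P, hP⟩ : ∃ P, P = 3 * Y1 / Y2 * (Z2 * r - 3 * x * X2 * g * X1) := ⟨_, rfl⟩
  obtain ⟨R, hR⟩ : ∃ R, R = 3 * Y1 / Y2 * (Z2 * (g * X1) + X2 * r) := ⟨_, rfl⟩
  have hPR : P ^ 2 + 3 * x * R ^ 2 = (N1 + 2 * N2) * (8 * N1 + 9 * N2) := by
    rw [eA, eB]
    have e4 : P ^ 2 + 3 * x * R ^ 2 = (3 * Y1 / Y2) ^ 2 *
        ((Z2 ^ 2 + 3 * x * X2 ^ 2) * (r ^ 2 + 3 * x * (g * X1) ^ 2)) := by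
      rw [hP, hR]; ring
    rw [e4, h2]
    field_simp
    ring
  by_cases hR0 : R = 0
  · have hP2 : P ^ 2 = (N1 + 2 * N2) * (8 * N1 + 9 * N2) := by
      rw [← hPR, hR0]; ring
    have hP0 : P ≠ 0 := by
      intro h
      rw [h] at hP2
      rw [← hP2] at hAB
      simp at hAB
    have h13 : (1 + 3 * x) ≠ 0 := by positivity
    refine asm_fin x _ _ N1 N2 (P * (1 - 3 * x) / (1 + 3 * x)) (2 * P / (1 + 3 * x)) n1 m1 n2 m2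
      ?_ rfl rfl hN1 hN2 ?_
    · exact div_ne_zero (mul_ne_zero two_ne_zero hP0) h13
    · rw [← hP2]
      field_simp
      ring
  · exact asm_fin x _ _ N1 N2 P R n1 m1 n2 m2 hR0 rfl rfl hN1 hN2 hPR

theorem t_ASM : S_ASM := by
  intro x t l u v a b c g hx ht hv hl hg hX ⟨X1, Y1, Z1, hY1, h1⟩ ⟨X2, Y2, Z2, hY2, h2⟩
  have hv0 : v ≠ 0 := by
    rintro rfl
    simp at hv
  refine asm_q (x : ℚ) (t : ℚ) (l : ℚ) (u : ℚ) (v : ℚ) (a : ℚ) (b : ℚ) (c : ℚ) (g : ℚ)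
    (X1 : ℚ) (Y1 : ℚ) (Z1 : ℚ) (X2 : ℚ) (Y2 : ℚ) (Z2 : ℚ) (by exact_mod_cast hx)
    (by exact_mod_cast ht) (by exact_mod_cast hv0) (by exact_mod_cast hl) (by exact_mod_cast hg)
    (by exact_mod_cast hX) (by exact_mod_cast hY1) ?_ (by exact_mod_cast hY2)
    (by exact_mod_cast h2)
  unfold Dd at h1
  exact_mod_cast h1

end H367PE
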