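import Pool.Agent.H367R2.PE.Defs

set_option autoImplicit false

namespace H367PE

theorem cmp_F7 (n r : ℚ) (h : F7 n) : F7 (n * r ^ 2) := by
  obtain ⟨a, b, c, h⟩ := h
  exact ⟨a * r, b * r, c * r, by rw [h]; ring⟩

theorem cmp_F3 (n r : ℚ) (h : F3 n) : F3 (n * r ^ 2) := by
  obtain ⟨a, b, c, h⟩ := h
  exact ⟨a * r, b * r, c * r, by rw [h]; ring⟩

theorem cmp_TX (n r : ℚ) (h : TX n) : TX (n * r ^ 2) := by
  obtain ⟨X, Y, Z, d, f, h1, h2⟩ := h
  refine ⟨X * r, Y * r, Z * r, d * r, f * r, ?_, ?_⟩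
  · linear_combination r ^ 2 * h1
  · linear_combination r ^ 2 * h2

/-- a positive rational is a natural number divided by a square -/
theorem cmp_nat (q : ℚ) (hq : 0 < q) :
    ∃ (N : ℕ) (s : ℚ), N ≠ 0 ∧ s ≠ 0 ∧ q = (N : ℚ) * s ^ 2 := by
  have hn : 0 < q.num := Rat.num_pos.mpr hq
  have hd : q.den ≠ 0 := q.den_nz
  refine ⟨q.num.toNat * q.den, 1 / (q.den : ℚ), ?_, ?_, ?_⟩
  · apply Nat.mul_ne_zero _ hd
    omega
  · exact one_div_ne_zero (by exact_mod_cast hd)
  · have h1 : ((q.num.toNat : ℕ) : ℚ) = (q.num : ℚ) := by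
      have : ((q.num.toNat : ℕ) : ℤ) = q.num := Int.toNat_of_nonneg hn.le
      exact_mod_cast congrArg (fun z : ℤ => (z : ℚ)) this
    have hd' : (q.den : ℚ) ≠ 0 := by exact_mod_cast hd
    have h2 : q = (q.num : ℚ) / (q.den : ℚ) := (Rat.num_div_den q).symm
    push_cast
    rw [h1]
    conv_lhs => rw [h2]
    field_simp

theorem t_CMP : S_CMP := by
  intro H1 H2 H3 H4 H5 x
  constructor
  · intro hx
    have hx0 : x ≠ 0 := by
      rintro rfl
      exact hx ⟨0, by simp⟩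
    refine ⟨hx0, ?_⟩
    rcases lt_or_gt_of_ne hx0 with hneg | hpos
    · left
      obtain ⟨N, s, -, -, hN⟩ := cmp_nat (-x) (by linarith)
      obtain ⟨a, b, c, d, habcd⟩ := Nat.sum_four_squares N
      refine ⟨a * s, b * s, c * s, d * s, ?_⟩
      have h1 : (N : ℚ) = (a : ℚ) ^ 2 + (b : ℚ) ^ 2 + (c : ℚ) ^ 2 + (d : ℚ) ^ 2 := by
        rw [← habcd]; push_cast; ring
      rw [h1] at hN
      linear_combination -hN
    · right
      obtain ⟨N, s, hN0, hs, hN⟩ := cmp_nat x hpos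
      obtain ⟨n, b, hnb, hsf⟩ := Nat.sq_mul_squarefree N
      have hxr : x = (n : ℚ) * ((b : ℚ) * s) ^ 2 := by
        rw [hN, ← hnb]; push_cast; ring
      have hn1 : n ≠ 1 := by
        rintro rfl
        apply hx
        exact ⟨(b : ℚ) * s, by rw [hxr]; push_cast; ring⟩
      have hn0 : n ≠ 0 := by
        rintro rfl
        apply hx0
        rw [hxr]; push_cast; ring
      rw [hxr]
      by_cases h8 : n % 8 = 1
      · by_cases h3 : n % 3 = 1
        · right; right
          exact cmp_TX _ _ (H1 n hsf (by omega) (by omega))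
        · right; left
          exact cmp_F3 _ _ (H3 n hsf h3)
      · left
        exact cmp_F7 _ _ (H2 n hsf h8)
  · rintro ⟨hx0, h⟩ ⟨w, hw⟩
    have hw2 : x = w ^ 2 := by rw [hw]; ring
    have hw0 : w ≠ 0 := by
      rintro rfl
      apply hx0
      rw [hw2]; ring
    rw [hw2] at h
    rcases h with h | h | h | h
    · obtain ⟨a, b, c, d, h⟩ := h
      have h1 : 0 < w ^ 2 := by positivity
      nlinarith [sq_nonneg a, sq_nonneg b, sq_nonneg c, sq_nonneg d]
    · exact (H5 w hw0).1 h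
    · exact (H5 w hw0).2 h
    · exact H4 w hw0 h

end H367PE
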