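import Pool.Agent.H367R2.PE.Defs

/-! Task CRT (helper409). -/

set_option autoImplicit false

namespace H367PE

theorem t_CRT : S_CRT := by
  intro S
  induction S using Finset.induction_on with
  | empty => intro _ f; exact ⟨0, by simp⟩
  | insert p S hp ih =>
    intro hS f
    obtain ⟨n, hn⟩ := ih (fun q hq => hS q (Finset.mem_insert_of_mem hq)) f
    have hpp := hS p (Finset.mem_insert_self _ _)
    have hcop : Nat.Coprime (∏ q ∈ S, q) p := by
      refine Nat.Coprime.prod_left fun q hq => ?_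
      refine (Nat.coprime_primes (hS q (Finset.mem_insert_of_mem hq)) hpp).2 ?_
      rintro rfl
      exact hp hq
    obtain ⟨u, v, huv⟩ := Nat.isCoprime_iff_coprime.2 hcop
    refine ⟨n + ((∏ q ∈ S, q : ℕ) : ℤ) * u * (f p - n), fun q hq => ?_⟩
    rcases Finset.mem_insert.1 hq with rfl | hq
    · refine ⟨(n - f q) * v, ?_⟩
      linear_combination (f q - n) * huv
    · have h1 : (q : ℤ) ∣ ((∏ q ∈ S, q : ℕ) : ℤ) := by
        exact_mod_cast Finset.dvd_prod_of_mem (fun q : ℕ => q) hq
      have h2 : n + ((∏ q ∈ S, q : ℕ) : ℤ) * u * (f p - n) - f q =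
        (n - f q) + ((∏ q ∈ S, q : ℕ) : ℤ) * (u * (f p - n)) := by ring
      rw [h2]
      exact dvd_add (hn q hq) (Dvd.dvd.mul_right h1 _)

end H367PE
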