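import Pool.Agent.H367R2.PE.Defs

set_option autoImplicit false

namespace H367PE

theorem dir_crt {a b : ℤ} (h : IsCoprime a b) (r s : ℤ) : ∃ c : ℤ, a ∣ c - r ∧ b ∣ c - s := by
  obtain ⟨u, v, huv⟩ := h
  refine ⟨s * (u * a) + r * (v * b), ⟨(s - r) * u, ?_⟩, ⟨(r - s) * v, ?_⟩⟩
  · linear_combination r * huv
  · linear_combination s * huv

theorem dir_cop {a c r : ℤ} (h : a ∣ c - r) (hr : IsCoprime r a) : IsCoprime c a := by
  obtain ⟨k, hk⟩ := h
  have : c = r + a * k := by linear_combination hk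
  rw [this]
  exact IsCoprime.add_mul_left_left_iff.2 hr

theorem dir_x' (x : ℕ) (hx : Squarefree x) : ∃ y : ℕ, y ∣ x ∧ ¬ 7 ∣ y ∧
    ∀ p : ℕ, p.Prime → p ∣ x → p ≠ 7 → p ∣ y := by
  by_cases h7 : 7 ∣ x
  · obtain ⟨y, hy⟩ := h7
    refine ⟨y, ⟨7, by rw [hy]; ring⟩, ?_, ?_⟩
    · intro h
      obtain ⟨z, hz⟩ := h
      have h1 : 7 * 7 ∣ x := ⟨z, by rw [hy, hz]; ring⟩
      have h2 := hx 7 h1
      rw [Nat.isUnit_iff] at h2
      omega
    · intro p hp hpx hp7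
      rw [hy] at hpx
      rcases hp.dvd_mul.1 hpx with h | h
      · exact absurd ((Nat.prime_dvd_prime_iff_eq hp (by norm_num)).1 h) hp7
      · exact h
  · exact ⟨x, dvd_rfl, h7, fun p _ h _ => h⟩

theorem t_DIR : S_DIR := by
  intro x l α D hx hx24 hl hl24 hlx hα hD hαD h3D hpD h7D N
  obtain ⟨y, hyx, hy7, hy⟩ := dir_x' x hx
  have hx0 : x ≠ 0 := by rintro rfl; omega
  have hy0 : y ≠ 0 := by
    rintro rfl
    exact hx0 (zero_dvd_iff.1 hyx)
  -- coprimality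
  have h3x : ¬ 3 ∣ x := by omega
  have h2x : ¬ 2 ∣ x := by omega
  have hDy : Nat.Coprime (8 * D.natAbs) y := by
    apply Nat.coprime_of_dvd
    intro p hp h1 h2
    have hpx : p ∣ x := h2.trans hyx
    rcases hp.dvd_mul.1 h1 with h | h
    · have h8 : p ∣ 2 := hp.dvd_of_dvd_pow (n := 3) (by norm_num; exact h)
      have h9 : p = 2 := (Nat.prime_dvd_prime_iff_eq hp Nat.prime_two).1 h8
      rw [h9] at hpx
      exact h2x hpx
    · by_cases hp7 : p = 7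
      · rw [hp7] at h2
        exact hy7 h2
      · exact hpD p hp hpx hp7 (Int.natCast_dvd.2 h)
  have hDyZ : IsCoprime (8 * D) (y : ℤ) := by
    rw [Int.isCoprime_iff_gcd_eq_one, Int.gcd_eq_natAbs, Int.natAbs_mul]
    exact hDy
  have h38 : IsCoprime (3 : ℤ) (8 * D) := by
    rw [Int.prime_three.coprime_iff_not_dvd]
    intro h
    rcases Int.prime_three.dvd_or_dvd h with h | h
    · norm_num at h
    · exact h3D h
  have h3y : IsCoprime (3 : ℤ) (y : ℤ) := by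
    rw [Int.prime_three.coprime_iff_not_dvd]
    intro h
    exact h3x ((by exact_mod_cast h : 3 ∣ y).trans hyx)
  have hα8 : IsCoprime α (8 * D) := by
    refine IsCoprime.mul_right ?_ hαD
    have h2 : IsCoprime (2 : ℤ) α := by
      rw [Int.prime_two.coprime_iff_not_dvd]
      intro h
      rw [← even_iff_two_dvd, ← Int.not_odd_iff_even] at h
      exact h hα
    have h3 : IsCoprime ((2 : ℤ) ^ 3) α := h2.pow_left
    have h4 : (2 : ℤ) ^ 3 = 8 := by norm_num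
    rw [h4] at h3
    exact h3.symm
  have hly : IsCoprime (l : ℤ) (y : ℤ) := by
    rw [Nat.isCoprime_iff_coprime]
    exact Nat.Coprime.coprime_dvd_right hyx hlx
  obtain ⟨c1, hc1, hc2⟩ := dir_crt hDyZ α (l : ℤ)
  have h3m : IsCoprime (8 * D * (y : ℤ)) 3 := (h38.symm.mul_left h3y.symm)
  obtain ⟨c, hc3, hc4⟩ := dir_crt h3m c1 2
  have e1 : 8 * D ∣ c - α := by
    have h1 : 8 * D ∣ c - c1 := (Dvd.intro _ rfl).trans hc3
    have h2 := dvd_add h1 hc1
    rwa [sub_add_sub_cancel] at h2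
  have e2 : (y : ℤ) ∣ c - l := by
    have h1 : (y : ℤ) ∣ c - c1 := (Dvd.intro_left _ rfl).trans hc3
    have h2 := dvd_add h1 hc2
    rwa [sub_add_sub_cancel] at h2
  have k1 : IsCoprime c (8 * D) := dir_cop e1 hα8
  have k2 : IsCoprime c (y : ℤ) := dir_cop e2 hly
  have k3 : IsCoprime c 3 := dir_cop hc4 ⟨-1, 1, by norm_num⟩
  have hM : IsCoprime c (8 * D * (y : ℤ) * 3) := (k1.mul_right k2).mul_right k3
  have hMpos : 0 < 8 * D * (y : ℤ) * 3 := by
    have : (0 : ℤ) < y := by exact_mod_cast Nat.pos_of_ne_zero hy0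
    positivity
  obtain ⟨q, hq⟩ : ∃ q : ℕ, (q : ℤ) = 8 * D * (y : ℤ) * 3 :=
    ⟨(8 * D * (y : ℤ) * 3).toNat, Int.toNat_of_nonneg hMpos.le⟩
  have hq0 : NeZero q := ⟨by
    rintro rfl
    rw [← hq] at hMpos
    simp at hMpos⟩
  have hu : IsUnit ((c : ℤ) : ZMod q) := by
    rw [ZMod.coe_int_isUnit_iff_isCoprime, hq]
    exact hM.symm
  obtain ⟨t, htN, ht, htc⟩ := Nat.forall_exists_prime_gt_and_eq_mod hu N
  have hdt : (8 * D * (y : ℤ) * 3) ∣ (t : ℤ) - c := by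
    rw [← hq, ← ZMod.intCast_eq_intCast_iff_dvd_sub]
    push_cast
    exact htc.symm
  refine ⟨t, ht, htN, ?_, ?_, ?_⟩
  · have h1 : (3 : ℤ) ∣ (t : ℤ) - c := (Dvd.intro_left _ rfl).trans hdt
    have h2 := dvd_add h1 hc4
    rw [sub_add_sub_cancel] at h2
    omega
  · have h1 : 8 * D ∣ (t : ℤ) - c := 
      dvd_trans (⟨(y : ℤ) * 3, by ring⟩ : 8 * D ∣ 8 * D * (y : ℤ) * 3) hdt
    have h2 := dvd_add h1 e1
    rwa [sub_add_sub_cancel] at h2
  · intro p hp hpx hp7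
    have h0 : (p : ℤ) ∣ (y : ℤ) := by exact_mod_cast hy p hp hpx hp7
    have h1 : (y : ℤ) ∣ (t : ℤ) - c := 
      dvd_trans (⟨8 * D * 3, by ring⟩ : (y : ℤ) ∣ 8 * D * (y : ℤ) * 3) hdt
    have h2 := dvd_add h1 e2
    rw [sub_add_sub_cancel] at h2
    exact h0.trans h2

end H367PE
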