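import Mathlib

/-!
# Non-squares in the rationals are positive-existentially definable: the statements

Task statements for `MP_cd0533_lc` (frozen statement S10565).
-/

set_option autoImplicit false

namespace H367PE

/-- The system `6 X² - 6 Y² = Z² + 3 x`, `6 X² - 294 Y² = d² + 3 f²`. -/
def TX (x : ℚ) : Prop :=
  ∃ X Y Z d f : ℚ, 6 * X ^ 2 - 6 * Y ^ 2 = Z ^ 2 + 3 * x ∧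
    6 * X ^ 2 - 294 * Y ^ 2 = d ^ 2 + 3 * f ^ 2

/-- `7` times a sum of three squares. -/
def F7 (x : ℚ) : Prop := ∃ a b c : ℚ, x = 7 * (a ^ 2 + b ^ 2 + c ^ 2)

/-- the form `2 a² + 6 b² + 6 c²` -/
def F3 (x : ℚ) : Prop := ∃ a b c : ℚ, x = 2 * a ^ 2 + 6 * b ^ 2 + 6 * c ^ 2

/-- minus a sum of four squares -/
def F4 (x : ℚ) : Prop := ∃ a b c d : ℚ, x = -(a ^ 2 + b ^ 2 + c ^ 2 + d ^ 2)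

/-- the discriminant `α δ - ρ²` of the binary form `α r² - 2 ρ r s + δ s²` -/
def Dd (u v a b c : ℤ) : ℤ :=
  (8 * u ^ 2 + v ^ 2) * (24 * u ^ 2 * a ^ 2 + 81 * u ^ 2 * b ^ 2 + 243 * u ^ 2 * c ^ 2 +
    3 * v ^ 2 * a ^ 2 + 32 * v ^ 2 * b ^ 2 + 96 * v ^ 2 * c ^ 2 - 42 * u * v * a * c) -
    (7 * u * v * b) ^ 2

/-- LEG: Legendre's theorem for `z² + D x² = b y²`, `b` and `D` positive and coprime. -/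
def S_LEG : Prop := ∀ b D : ℤ, 0 < b → 0 < D → IsCoprime b D →
  (∃ k : ℤ, b ∣ k ^ 2 + D) → (∃ m : ℤ, D ∣ m ^ 2 - b) →
  ∃ x y z : ℤ, y ≠ 0 ∧ z ^ 2 + D * x ^ 2 = b * y ^ 2

/-- ELL: the prime `l`. -/
def S_ELL : Prop := ∀ x : ℕ, Squarefree x → x % 24 = 1 → 1 < x →
  ∃ l : ℕ, l.Prime ∧ l % 24 = 11 ∧ jacobiSym (l : ℤ) x = -1

/-- UV: representation of `l` by `9 u² + 2 v²`. -/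
def S_UV : Prop := ∀ l : ℕ, l.Prime → l % 24 = 11 → ∃ u v : ℤ, (l : ℤ) = 9 * u ^ 2 + 2 * v ^ 2

/-- THR: representation of `x` by `a² + 6 b² + 18 c²`. -/
def S_THR : Prop := ∀ x : ℕ, x % 24 = 1 → ∃ a b c : ℤ, a ^ 2 + 6 * b ^ 2 + 18 * c ^ 2 = x

/-- CRT. -/
def S_CRT : Prop := ∀ S : Finset ℕ, (∀ p ∈ S, p.Prime) → ∀ f : ℕ → ℤ,
  ∃ n : ℤ, ∀ p ∈ S, (p : ℤ) ∣ n - f p

/-- REF1: the first reflection. -/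
def S_REF1 : Prop := ∀ (x : ℕ) (α a0 b0 c0 : ℤ), Squarefree x → x % 24 = 1 → 0 < α → Odd α →
  a0 ^ 2 + 6 * b0 ^ 2 + 18 * c0 ^ 2 = x →
  ∃ a b c g : ℤ, g ≠ 0 ∧ a ^ 2 + 6 * b ^ 2 + 18 * c ^ 2 = x * g ^ 2 ∧ ¬ (3 : ℤ) ∣ b ∧
    (∀ p : ℕ, p.Prime → (p : ℤ) ∣ α → ¬ (p : ℤ) ∣ b) ∧
    (∀ p : ℕ, p.Prime → p ∣ x → ¬ (p : ℤ) ∣ a ∧ ¬ (p : ℤ) ∣ b ∧ ¬ (p : ℤ) ∣ c)

/-- REF2: the second reflection. -/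
def S_REF2 : Prop := ∀ (x : ℕ) (l u v a b c g : ℤ), Squarefree x → x % 24 = 1 → Odd v →
  l = 9 * u ^ 2 + 2 * v ^ 2 → IsCoprime u v → IsCoprime l (x : ℤ) →
  g ≠ 0 → a ^ 2 + 6 * b ^ 2 + 18 * c ^ 2 = x * g ^ 2 → ¬ (3 : ℤ) ∣ b →
  (∀ p : ℕ, p.Prime → (p : ℤ) ∣ 8 * u ^ 2 + v ^ 2 → ¬ (p : ℤ) ∣ b) →
  (∀ p : ℕ, p.Prime → p ∣ x → ¬ (p : ℤ) ∣ a ∧ ¬ (p : ℤ) ∣ b ∧ ¬ (p : ℤ) ∣ c) →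
  ∃ a' b' c' g' : ℤ, g' ≠ 0 ∧ a' ^ 2 + 6 * b' ^ 2 + 18 * c' ^ 2 = x * g' ^ 2 ∧
    ¬ (3 : ℤ) ∣ b' ∧
    (∀ p : ℕ, p.Prime → (p : ℤ) ∣ 8 * u ^ 2 + v ^ 2 → ¬ (p : ℤ) ∣ b') ∧
    (∀ p : ℕ, p.Prime → p ∣ x →
      ¬ (p : ℤ) ∣ (8 * u ^ 2 + v ^ 2) * (a' * v + 9 * u * c') ^ 2 + 24 * l * u ^ 2 * b' ^ 2)

/-- ALG: arithmetic of the discriminant. -/
def S_ALG : Prop := ∀ (x : ℕ) (l u v a b c g : ℤ), Squarefree x → x % 24 = 1 → Odd v →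
  l = 9 * u ^ 2 + 2 * v ^ 2 → IsCoprime (3 * u) v →
  g ≠ 0 → a ^ 2 + 6 * b ^ 2 + 18 * c ^ 2 = x * g ^ 2 → ¬ (3 : ℤ) ∣ b →
  (∀ p : ℕ, p.Prime → (p : ℤ) ∣ 8 * u ^ 2 + v ^ 2 → ¬ (p : ℤ) ∣ b) →
  (∀ p : ℕ, p.Prime → p ∣ x →
    ¬ (p : ℤ) ∣ (8 * u ^ 2 + v ^ 2) * (a * v + 9 * u * c) ^ 2 + 24 * l * u ^ 2 * b ^ 2) →
  0 < Dd u v a b c ∧ IsCoprime (8 * u ^ 2 + v ^ 2) (Dd u v a b c) ∧ ¬ (3 : ℤ) ∣ Dd u v a b c ∧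
    (∀ p : ℕ, p.Prime → p ∣ x → p ≠ 7 → ¬ (p : ℤ) ∣ Dd u v a b c) ∧
    (7 ∣ x → (7 : ℤ) ∣ Dd u v a b c) ∧ (7 : ℤ) ∣ l - 2 * (8 * u ^ 2 + v ^ 2) ∧
    ¬ (7 : ℤ) ∣ 8 * u ^ 2 + v ^ 2 ∧ ∃ r : ℤ, 8 * u ^ 2 + v ^ 2 ∣ r ^ 2 + Dd u v a b c

/-- DIR: the Dirichlet prime `t`. -/
def S_DIR : Prop := ∀ (x l : ℕ) (α D : ℤ), Squarefree x → x % 24 = 1 → l.Prime → l % 24 = 11 →
  Nat.Coprime l x → Odd α → 0 < D → IsCoprime α D → ¬ (3 : ℤ) ∣ D →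
  (∀ p : ℕ, p.Prime → p ∣ x → p ≠ 7 → ¬ (p : ℤ) ∣ D) → (7 ∣ x → (7 : ℤ) ∣ D) →
  ∀ N : ℕ, ∃ t : ℕ, t.Prime ∧ N < t ∧ t % 3 = 2 ∧ 8 * D ∣ t - α ∧
    ∀ p : ℕ, p.Prime → p ∣ x → p ≠ 7 → (p : ℤ) ∣ t - l

/-- E1: `-3 x` is a square modulo `l t`. -/
def S_E1 : Prop := ∀ (x l t : ℕ) (α : ℤ), Squarefree x → x % 24 = 1 → l.Prime → l % 24 = 11 →
  jacobiSym (l : ℤ) x = -1 → t.Prime → t % 3 = 2 → 2 < t → l < t → x < t →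
  (∀ p : ℕ, p.Prime → p ∣ x → p ≠ 7 → (p : ℤ) ∣ t - l) → (7 ∣ x → (7 : ℤ) ∣ t - α) →
  (7 : ℤ) ∣ l - 2 * α → ∃ k : ℤ, ((l : ℤ) * t) ∣ k ^ 2 + 3 * x

/-- E2: `l t` is a square modulo `3 x`. -/
def S_E2 : Prop := ∀ (x l t : ℕ) (α : ℤ), Squarefree x → x % 24 = 1 → l.Prime → l % 24 = 11 →
  t.Prime → t % 3 = 2 → l < t → x < t →
  (∀ p : ℕ, p.Prime → p ∣ x → p ≠ 7 → (p : ℤ) ∣ t - l) → (7 ∣ x → (7 : ℤ) ∣ t - α) →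
  (7 : ℤ) ∣ l - 2 * α → ∃ m : ℤ, (3 * x : ℤ) ∣ m ^ 2 - l * t

/-- E3: the other conic. -/
def S_E3 : Prop := ∀ (t : ℕ) (α D : ℤ), t.Prime → 0 < α → Odd α → 0 < D → IsCoprime α D →
  (∃ r : ℤ, α ∣ r ^ 2 + D) → 8 * D ∣ t - α → α < t → D < t →
  (∃ k : ℤ, α * t ∣ k ^ 2 + D) ∧ (∃ m : ℤ, D ∣ m ^ 2 - α * t) ∧ IsCoprime (α * t) D

/-- ASM: from the two conics to the system. -/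
def S_ASM : Prop := ∀ (x t : ℕ) (l u v a b c g : ℤ), 0 < x → 0 < t → Odd v →
  l = 9 * u ^ 2 + 2 * v ^ 2 → g ≠ 0 → a ^ 2 + 6 * b ^ 2 + 18 * c ^ 2 = x * g ^ 2 →
  (∃ X Y Z : ℤ, Y ≠ 0 ∧ Z ^ 2 + Dd u v a b c * X ^ 2 = (8 * u ^ 2 + v ^ 2) * t * Y ^ 2) →
  (∃ X Y Z : ℤ, Y ≠ 0 ∧ Z ^ 2 + 3 * x * X ^ 2 = l * t * Y ^ 2) → TX x

/-- SND: soundness of the system. -/
def S_SND : Prop := ∀ w : ℚ, w ≠ 0 → ¬ TX (w ^ 2)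

/-- TWO: numbers `2 mod 4` are sums of three rational squares. -/
def S_TWO : Prop := ∀ n : ℕ, n % 4 = 2 → ∃ a b c : ℚ, a ^ 2 + b ^ 2 + c ^ 2 = n

/-- G3A: the form `2 a² + 6 b² + 6 c²`, `x = 2 mod 3`. -/
def S_G3A : Prop := ∀ x : ℕ, Squarefree x → x % 3 = 2 → F3 x

/-- G3B: the form `2 a² + 6 b² + 6 c²`, `3 ∣ x`. -/
def S_G3B : Prop := ∀ x : ℕ, Squarefree x → 3 ∣ x → F3 x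

/-- S73: soundness of the two ternary forms. -/
def S_S73 : Prop := ∀ w : ℚ, w ≠ 0 → ¬ F7 (w ^ 2) ∧ ¬ F3 (w ^ 2)

/-- CMP: the complete equivalence from the parts. -/
def S_CMP : Prop :=
  (∀ x : ℕ, Squarefree x → x % 24 = 1 → 1 < x → TX x) →
  (∀ x : ℕ, Squarefree x → x % 8 ≠ 1 → F7 x) →
  (∀ x : ℕ, Squarefree x → x % 3 ≠ 1 → F3 x) →
  (∀ w : ℚ, w ≠ 0 → ¬ TX (w ^ 2)) → (∀ w : ℚ, w ≠ 0 → ¬ F7 (w ^ 2) ∧ ¬ F3 (w ^ 2)) →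
  ∀ x : ℚ, ¬ IsSquare x ↔ x ≠ 0 ∧ (F4 x ∨ F7 x ∨ F3 x ∨ TX x)

/-- FRM: the normal form. -/
def S_FRM : Prop :=
  (∀ x : ℚ, ¬ IsSquare x ↔ x ≠ 0 ∧ (F4 x ∨ F7 x ∨ F3 x ∨ TX x)) →
      ∃ (k m e s : ℕ) (α : Fin k → Fin e → ℤ) (β : Fin k → Fin e → Fin m → ℤ)
        (γ : Fin k → Fin e → ℤ) (p : Fin k → Fin s → ℕ) (q : Fin k → Fin s → Fin m → ℕ)
        (r : Fin k → Fin s → ℕ),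
        ∀ x : ℚ, ¬ IsSquare x ↔ ∃ i : Fin k, ∃ y : Fin m → ℚ,
          (∀ j : Fin e, (α i j : ℚ) * x + (∑ l : Fin m, (β i j l : ℚ) * y l) + (γ i j : ℚ) = 0) ∧
          (∀ j : Fin s, IsSquare ((p i j : ℚ) * x + (∑ l : Fin m, (q i j l : ℚ) * y l) +
            (r i j : ℚ)))

end H367PE
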