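import Pool.Agent.H367R2.PE.Defs

/-!
E1: `-3 x` is a square modulo `l t`.
-/

set_option autoImplicit false

namespace H367PE

open NumberTheorySymbols

lemma e1_neg_three (p : ℕ) (hodd : Odd p) (h3 : p % 3 = 2) : jacobiSym (-3) p = -1 := by
  have hJ : jacobiSym (p : ℤ) 3 = -1 := by
    rw [jacobiSym.mod_left]
    have : ((p : ℤ) % ((3 : ℕ) : ℤ)) = 2 := by
      push_cast
      omega
    rw [this]
    norm_num
  rw [show (-3 : ℤ) = -((3 : ℕ) : ℤ) by norm_num, jacobiSym.neg _ hodd]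
  have h4 : p % 4 = 1 ∨ p % 4 = 3 := by
    obtain ⟨k, hk⟩ := hodd
    omega
  rcases h4 with h4 | h4
  · rw [jacobiSym.quadratic_reciprocity_one_mod_four' (by decide) h4, hJ,
      ZMod.χ₄_nat_one_mod_four h4]
    norm_num
  · rw [jacobiSym.quadratic_reciprocity_three_mod_four (by norm_num) h4, hJ,
      ZMod.χ₄_nat_three_mod_four h4]
    norm_num

lemma e1_seven (a b : ℤ) (h : (7 : ℤ) ∣ a - 2 * b) :
    @legendreSym 7 ⟨by norm_num⟩ a = @legendreSym 7 ⟨by norm_num⟩ b := by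
  haveI : Fact (Nat.Prime 7) := ⟨by norm_num⟩
  have h1 : legendreSym 7 a = legendreSym 7 (2 * b) := by
    unfold legendreSym
    congr 1
    rw [← sub_eq_zero, ← Int.cast_sub, ZMod.intCast_zmod_eq_zero_iff_dvd]
    exact h
  have h2 : legendreSym 7 2 = 1 := by norm_num
  have h3 : legendreSym 7 (2 * b) = legendreSym 7 b := by
    rw [legendreSym.mul, h2, one_mul]
  exact h1.trans h3

lemma e1_jac (x l t : ℕ) (α : ℤ)
    (h1 : ∀ p : ℕ, p.Prime → p ∣ x → p ≠ 7 → (p : ℤ) ∣ t - l) (h2 : 7 ∣ x → (7 : ℤ) ∣ t - α)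
    (h3 : (7 : ℤ) ∣ l - 2 * α) : jacobiSym (t : ℤ) x = jacobiSym (l : ℤ) x := by
  unfold jacobiSym
  congr 1
  apply List.pmap_congr_left
  intro p hp pp1 _
  have hpx : p ∣ x := Nat.dvd_of_mem_primeFactorsList hp
  by_cases h7 : p = 7
  · subst h7
    haveI : Fact (Nat.Prime 7) := ⟨by norm_num⟩
    have e1 : legendreSym 7 (t : ℤ) = legendreSym 7 α := by
      unfold legendreSym
      congr 1
      rw [← sub_eq_zero, ← Int.cast_sub, ZMod.intCast_zmod_eq_zero_iff_dvd]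
      exact h2 hpx
    exact e1.trans (e1_seven _ _ h3).symm
  · haveI : Fact p.Prime := ⟨pp1⟩
    have e1 : legendreSym p (t : ℤ) = legendreSym p (l : ℤ) := by
      unfold legendreSym
      congr 1
      rw [← sub_eq_zero, ← Int.cast_sub, ZMod.intCast_zmod_eq_zero_iff_dvd]
      exact h1 p pp1 hpx h7
    exact e1

lemma e1_sq (p x : ℕ) (hp : p.Prime) (h2 : 2 < p) (h3 : p % 3 = 2) (hx : x % 24 = 1)
    (hJ : jacobiSym (p : ℤ) x = -1) : ∃ k : ℤ, (p : ℤ) ∣ k ^ 2 + 3 * x := by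
  haveI : Fact p.Prime := ⟨hp⟩
  have hodd : Odd p := hp.odd_of_ne_two (by omega)
  have e : jacobiSym (-3 * x) p = 1 := by
    rw [jacobiSym.mul_left, e1_neg_three p hodd h3,
      jacobiSym.quadratic_reciprocity_one_mod_four (by omega) hodd, hJ]
    norm_num
  rw [← jacobiSym.legendreSym.to_jacobiSym] at e
  have hne : ((-3 * (x : ℤ) : ℤ) : ZMod p) ≠ 0 := by
    intro h0
    rw [← legendreSym.eq_zero_iff] at h0
    rw [h0] at e
    exact absurd e (by norm_num)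
  rw [legendreSym.eq_one_iff p hne] at e
  obtain ⟨r, hr⟩ := e
  obtain ⟨k, hk⟩ := ZMod.intCast_surjective r
  refine ⟨k, ?_⟩
  rw [← ZMod.intCast_zmod_eq_zero_iff_dvd]
  push_cast
  rw [hk]
  push_cast at hr
  linear_combination -hr

theorem t_E1 : S_E1 := by
  intro x l t α _ hx hl hl24 hJ ht ht3 ht2 hlt _ h1 h2 h3
  have hJt : jacobiSym (t : ℤ) x = -1 := by rw [e1_jac x l t α h1 h2 h3, hJ]
  have hl2 : 2 < l := by omega
  obtain ⟨k1, hk1⟩ := e1_sq l x hl hl2 (by omega) hx hJ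
  obtain ⟨k2, hk2⟩ := e1_sq t x ht ht2 ht3 hx hJt
  have hcop : Nat.Coprime l t := (Nat.coprime_primes hl ht).2 (by omega)
  have hcop' : IsCoprime (l : ℤ) (t : ℤ) := Nat.isCoprime_iff_coprime.2 hcop
  obtain ⟨a, b, hab⟩ := hcop'
  -- k = k1 * b t + k2 * a l
  refine ⟨k1 * (b * t) + k2 * (a * l), ?_⟩
  have hcop' : IsCoprime (l : ℤ) (t : ℤ) := ⟨a, b, hab⟩
  apply hcop'.mul_dvd
  · have e : (k1 * (b * t) + k2 * (a * l)) ^ 2 + 3 * (x : ℤ) =
        (k1 ^ 2 + 3 * x) + l * (a * (k2 - k1) * (2 * k1 + l * a * (k2 - k1))) := by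
      have hbt : b * (t : ℤ) = 1 - a * l := by linear_combination hab
      rw [hbt]
      ring
    rw [e]
    exact dvd_add hk1 (Dvd.intro _ rfl)
  · have e : (k1 * (b * t) + k2 * (a * l)) ^ 2 + 3 * (x : ℤ) =
        (k2 ^ 2 + 3 * x) + t * (b * (k1 - k2) * (2 * k2 + t * b * (k1 - k2))) := by
      have hal : a * (l : ℤ) = 1 - b * t := by linear_combination hab
      rw [hal]
      ring
    rw [e]
    exact dvd_add hk2 (Dvd.intro _ rfl)

end H367PE
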