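import Pool.Agent.H367R2.PE.Defs

set_option autoImplicit false

/-! E2: `l t` is a square modulo `3 x`. -/

namespace H367PE

/-- squares modulo a squarefree number -/
theorem e2_combine (c : ℤ) (n : ℕ) : Squarefree n →
    (∀ p : ℕ, p.Prime → p ∣ n → ∃ m : ℤ, (p : ℤ) ∣ m ^ 2 - c) → ∃ m : ℤ, (n : ℤ) ∣ m ^ 2 - c := by
  induction n using induction_on_primes with
  | zero => intro h; exact absurd h (by simp)
  | one => intro _ _; exact ⟨0, by simp⟩
  | prime_mul p a hp ih =>
    intro hsq h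
    have hcop : Nat.Coprime p a := Nat.coprime_of_squarefree_mul hsq
    obtain ⟨m2, hm2⟩ := ih (hsq.squarefree_of_dvd (dvd_mul_left a p))
      (fun q hq hqa => h q hq (hqa.mul_left p))
    obtain ⟨m1, hm1⟩ := h p hp (dvd_mul_right p a)
    obtain ⟨u, v, huv⟩ := Nat.isCoprime_iff_coprime.2 hcop
    refine ⟨m1 * (v * a) + m2 * (u * p), ?_⟩
    push_cast
    refine (Nat.isCoprime_iff_coprime.2 hcop).mul_dvd ?_ ?_
    · have e : (m1 * (v * a) + m2 * (u * p)) ^ 2 - c =
          (m1 ^ 2 - c) + (p : ℤ) * ((m2 - m1) * u * (m1 * (v * a) + m2 * (u * p) + m1)) := by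
        have h1 : (v * a : ℤ) = 1 - u * p := by linarith
        rw [h1]
        ring
      rw [e]
      exact dvd_add hm1 (dvd_mul_right _ _)
    · have e : (m1 * (v * a) + m2 * (u * p)) ^ 2 - c =
          (m2 ^ 2 - c) + (a : ℤ) * ((m1 - m2) * v * (m1 * (v * a) + m2 * (u * p) + m2)) := by
        have h1 : (u * p : ℤ) = 1 - v * a := by linarith
        rw [h1]
        ring
      rw [e]
      exact dvd_add hm2 (dvd_mul_right _ _)

theorem t_E2 : S_E2 := by
  intro x l t α hx hx24 hl hl24 ht ht3 hlt hxt hp h7 h7l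
  have h3x : Nat.Coprime 3 x := by
    rw [Nat.Prime.coprime_iff_not_dvd Nat.prime_three]
    omega
  have hsq : Squarefree (3 * x) :=
    (Nat.squarefree_mul h3x).2 ⟨Nat.prime_three.prime.irreducible.squarefree, hx⟩
  have key := e2_combine ((l : ℤ) * t) (3 * x) hsq ?_
  · obtain ⟨m, hm⟩ := key
    exact ⟨m, by push_cast at hm; exact hm⟩
  · intro p hpp hpd
    rcases (Nat.Prime.dvd_mul hpp).1 hpd with h | h
    · have h3 : p = 3 := (Nat.prime_dvd_prime_iff_eq hpp Nat.prime_three).1 h
      subst h3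
      refine ⟨1, ?_⟩
      have h1 : (l : ℤ) % 3 = 2 := by omega
      have h2 : (t : ℤ) % 3 = 2 := by omega
      have h4 : ((l : ℤ) * t) % 3 = 1 := by rw [Int.mul_emod, h1, h2]; rfl
      push_cast
      omega
    · by_cases h77 : p = 7
      · subst h77
        obtain ⟨a, ha⟩ := h7 h
        obtain ⟨b, hb⟩ := h7l
        refine ⟨3 * α, ?_⟩
        have ht' : (t : ℤ) = α + 7 * a := by push_cast at ha; linarith
        have hl' : (l : ℤ) = 2 * α + 7 * b := by linarith
        rw [ht', hl']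
        refine ⟨α ^ 2 - 2 * α * a - α * b - 7 * a * b, ?_⟩
        push_cast
        ring
      · obtain ⟨a, ha⟩ := hp p hpp h h77
        refine ⟨l, ?_⟩
        have ht' : (t : ℤ) = l + p * a := by linarith
        rw [ht']
        exact ⟨-(l * a), by ring⟩

end H367PE
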