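import Pool.Agent.H367R2.PE.Defs

set_option autoImplicit false

namespace H367PE

theorem e3_coprime (t : ℕ) (ht : t.Prime) (D : ℤ) (hD : 0 < D) (hDt : D < t) :
    IsCoprime (t : ℤ) D := by
  rw [Int.isCoprime_iff_gcd_eq_one]
  have hD' : D = (D.natAbs : ℤ) := by omega
  rw [hD', Int.gcd_natCast_natCast]
  apply (Nat.Prime.coprime_iff_not_dvd ht).2
  intro h
  have := Nat.le_of_dvd (by omega) h
  omega

theorem t_E3 : S_E3 := by
  intro t α D ht hα hαo hD hco hr h8 hαt hDt
  obtain ⟨r, hr⟩ := hr
  have htD := e3_coprime t ht D hD hDt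
  have htα := e3_coprime t ht α hα hαt
  have hto : Odd t := by
    obtain ⟨c, hc⟩ := h8
    obtain ⟨d, hd⟩ := hαo
    have : (t : ℤ) = 2 * (4 * D * c + d) + 1 := by linarith
    have h2 : Odd (t : ℤ) := ⟨_, this⟩
    exact_mod_cast h2
  -- `-D` is a square modulo `t`
  have hs : ∃ s : ℤ, (t : ℤ) ∣ s ^ 2 + D := by
    have : Fact t.Prime := ⟨ht⟩
    set A : ℕ := α.natAbs with hA
    have hAα : (A : ℤ) = α := by omega
    have hAo : Odd A := by
      rw [← hAα] at hαo
      exact_mod_cast hαo
    have hrα : Int.gcd r A = 1 := by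
      rw [← Int.isCoprime_iff_gcd_eq_one, hAα]
      obtain ⟨q, hq⟩ := hr
      have h1 : IsCoprime (r ^ 2) α := by
        have h2 : r ^ 2 = -D + α * q := by linarith
        rw [h2]
        exact (hco.symm.neg_left).add_mul_left_left q
      exact (IsCoprime.pow_left_iff (by norm_num)).1 h1
    have hJα : jacobiSym (-D) A = 1 := by
      have h1 : (-D) % (A : ℤ) = (r ^ 2) % (A : ℤ) := by
        rw [hAα]
        have h2 : α ∣ r ^ 2 - -D := by
          have e : r ^ 2 - -D = r ^ 2 + D := by ring
          rw [e]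
          exact hr
        exact (Int.modEq_iff_dvd).2 h2
      rw [jacobiSym.mod_left' h1]
      exact jacobiSym.sq_one' hrα
    have hmod : t % (4 * (-D).natAbs) = A % (4 * (-D).natAbs) := by
      have h1 : ((4 * (-D).natAbs : ℕ) : ℤ) ∣ (t : ℤ) - A := by
        rw [hAα]
        have e : ((4 * (-D).natAbs : ℕ) : ℤ) = 4 * D := by
          push_cast
          rw [abs_neg, abs_of_pos hD]
        rw [e]
        exact dvd_trans ⟨2, by ring⟩ h8
      have h2 : (A : ℤ) ≡ t [ZMOD (4 * (-D).natAbs : ℕ)] := (Int.modEq_iff_dvd).2 h1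
      exact ((Int.natCast_modEq_iff).1 h2).symm
    have hJt : jacobiSym (-D) t = 1 := by
      rw [jacobiSym.mod_right _ hto, hmod, ← jacobiSym.mod_right _ hAo, hJα]
    have hne : ((-D : ℤ) : ZMod t) ≠ 0 := by
      intro h0
      rw [ZMod.intCast_zmod_eq_zero_iff_dvd] at h0
      rw [dvd_neg] at h0
      have := Int.le_of_dvd hD h0
      omega
    rw [← jacobiSym.legendreSym.to_jacobiSym, legendreSym.eq_one_iff t hne] at hJt
    obtain ⟨z, hz⟩ := hJt
    refine ⟨(z.val : ℤ), ?_⟩
    rw [← ZMod.intCast_zmod_eq_zero_iff_dvd]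
    push_cast
    rw [ZMod.natCast_zmod_val]
    have : (D : ZMod t) = -(z * z) := by
      rw [← hz]
      push_cast
      ring
    rw [this]
    ring
  obtain ⟨s, hs⟩ := hs
  refine ⟨?_, ?_, ?_⟩
  · obtain ⟨u, v, huv⟩ := htα.symm
    refine ⟨r * v * t + s * u * α, ?_⟩
    have h1 : α ∣ (r * v * t + s * u * α) ^ 2 + D := by
      obtain ⟨q, hq⟩ := hr
      have e : r * v * t + s * u * α = r + α * (u * (s - r)) := by
        have : v * (t : ℤ) = 1 - u * α := by linarith
        calc r * v * t + s * u * α = r * (v * t) + s * u * α := by ring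
          _ = r * (1 - u * α) + s * u * α := by rw [this]
          _ = _ := by ring
      rw [e]
      refine ⟨q + (u * (s - r)) * (2 * r + α * (u * (s - r))), ?_⟩
      linear_combination hq
    have h2 : (t : ℤ) ∣ (r * v * t + s * u * α) ^ 2 + D := by
      obtain ⟨q, hq⟩ := hs
      have e : r * v * t + s * u * α = s + t * (v * (r - s)) := by
        have : u * α = 1 - v * (t : ℤ) := by linarith
        calc r * v * t + s * u * α = r * v * t + s * (u * α) := by ring
          _ = r * v * t + s * (1 - v * t) := by rw [this]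
          _ = _ := by ring
      rw [e]
      refine ⟨q + (v * (r - s)) * (2 * s + t * (v * (r - s))), ?_⟩
      linear_combination hq
    exact htα.symm.mul_dvd h1 h2
  · obtain ⟨q, hq⟩ := h8
    refine ⟨α, -(8 * α * q), ?_⟩
    linear_combination (-α) * hq
  · exact IsCoprime.mul_left hco htD

end H367PE
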