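import Pool.Agent.H367R2.PE.Defs

set_option autoImplicit false

namespace H367PE

theorem t_ELL : S_ELL := by
  intro x hsq hx24 hx1
  have hx0 : x ≠ 0 := by omega
  set p := x.minFac with hp
  have hpp : p.Prime := Nat.minFac_prime (by omega)
  haveI : Fact p.Prime := ⟨hpp⟩
  obtain ⟨m, hm⟩ : p ∣ x := Nat.minFac_dvd x
  have hcop : Nat.Coprime p m := by
    apply Nat.coprime_of_squarefree_mul
    rw [← hm]; exact hsq
  have hm0 : m ≠ 0 := by rintro rfl; omega
  have hp2 : p ≠ 2 := by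
    intro h
    rw [h] at hm
    omega
  have hx24c : Nat.Coprime x 24 := by
    have : Nat.gcd (x % 24) 24 = 1 := by rw [hx24]; norm_num
    rw [Nat.coprime_iff_gcd_eq_one, Nat.gcd_comm, Nat.gcd_rec, this]
  obtain ⟨a, ha⟩ := FiniteField.exists_nonsquare (F := ZMod p) (by
    rw [ZMod.ringChar_zmod_n]; exact hp2)
  have ha0 : a ≠ 0 := by
    rintro rfl
    exact ha ⟨0, by simp⟩
  obtain ⟨c1, hc1p, hc1m⟩ := Nat.chineseRemainder hcop a.val 1
  obtain ⟨c, hcx, hc24⟩ := Nat.chineseRemainder hx24c c1 11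
  have hcp : c ≡ a.val [MOD p] := (hcx.of_dvd ⟨m, hm⟩).trans hc1p
  have hcm : c ≡ 1 [MOD m] := (hcx.of_dvd ⟨p, by rw [hm]; ring⟩).trans hc1m
  have hcopp : Nat.Coprime c p := by
    rw [Nat.coprime_comm, hpp.coprime_iff_not_dvd]
    intro hdvd
    have h1 : a.val % p = 0 := by rw [← hcp]; exact Nat.mod_eq_zero_of_dvd hdvd
    rw [Nat.mod_eq_of_lt (ZMod.val_lt a)] at h1
    exact ha0 ((ZMod.val_eq_zero a).1 h1)
  have hcopm : Nat.Coprime c m := by
    have := hcm.gcd_eq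
    rw [Nat.gcd_one_left] at this
    exact this
  have hcop24 : Nat.Coprime c 24 := by
    have := hc24.gcd_eq
    norm_num at this
    exact this
  have hcopx : Nat.Coprime c (x * 24) := by
    rw [hm]
    exact (Nat.Coprime.mul_right (Nat.Coprime.mul_right hcopp hcopm) hcop24)
  obtain ⟨l, hl, hlp, hlc⟩ := Nat.forall_exists_prime_gt_and_modEq 0 (q := x * 24) (a := c)
    (by positivity) hcopx
  refine ⟨l, hlp, ?_, ?_⟩
  · have : l ≡ 11 [MOD 24] := (hlc.of_dvd ⟨x, by ring⟩).trans hc24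
    unfold Nat.ModEq at this
    omega
  · have hlx : l ≡ c [MOD x] := hlc.of_dvd ⟨24, rfl⟩
    have hlp' : l ≡ a.val [MOD p] := (hlx.of_dvd ⟨m, hm⟩).trans hcp
    have hlm : l ≡ 1 [MOD m] := (hlx.of_dvd ⟨p, by rw [hm]; ring⟩).trans hcm
    haveI : NeZero m := ⟨hm0⟩
    haveI : NeZero p := ⟨hpp.ne_zero⟩
    rw [hm, jacobiSym.mul_right]
    have e1 : jacobiSym (l : ℤ) m = 1 := by
      have h1 : (l : ℤ) % m = (1 : ℤ) % m := by exact_mod_cast hlm
      rw [jacobiSym.mod_left' h1, jacobiSym.one_left]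
    have e2 : jacobiSym (l : ℤ) p = -1 := by
      rw [← jacobiSym.legendreSym.to_jacobiSym]
      rw [legendreSym.eq_neg_one_iff]
      have h2 : ((l : ℤ) : ZMod p) = a := by
        have h3 : ((l : ℕ) : ZMod p) = ((a.val : ℕ) : ZMod p) :=
          (ZMod.natCast_eq_natCast_iff _ _ _).2 hlp'
        rw [ZMod.natCast_zmod_val] at h3
        push_cast
        exact h3
      rw [h2]
      exact ha
    rw [e1, e2]
    norm_num

end H367PE
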