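import Pool.Agent.H367R2.PE.Defs
import Pool.Agent.H573R2.NonzeroPE

set_option autoImplicit false

namespace H367PE

/-- the coefficients of `x` -/
def frm_al (i : Fin 4) : Fin 4 → ℤ := ![0, 1, ![1, 1, 1, -3] i, 0]
def frm_b2 : Fin 4 → Fin 12 → ℤ := ![![0, 0, 0, 0, 0, 0, 0, 1, 1, 1, 1, 0],
  ![0, 0, 0, 0, 0, 0, 0, -7, -7, -7, 0, 0], ![0, 0, 0, 0, 0, 0, 0, -2, -6, -6, 0, 0],
  ![0, 0, 0, 0, 0, 0, 0, 6, -6, -1, 0, 0]]
def frm_b3 : Fin 4 → Fin 12 → ℤ := ![![0, 0, 0, 0, 0, 0, 0, 0, 0, 0, 0, 0],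
  ![0, 0, 0, 0, 0, 0, 0, 0, 0, 0, 0, 0], ![0, 0, 0, 0, 0, 0, 0, 0, 0, 0, 0, 0],
  ![0, 0, 0, 0, 0, 0, 0, 6, -294, 0, -1, -3]]
def frm_be (i : Fin 4) : Fin 4 → Fin 12 → ℤ :=
  ![![0, 1, -1, -1, -1, -1, 0, 0, 0, 0, 0, 0], ![1, -2, 0, 0, 0, 0, -1, 0, 0, 0, 0, 0],
    frm_b2 i, frm_b3 i]
def frm_ga : Fin 4 → ℤ := ![-1, 0, 0, 0]
def frm_q : Fin 13 → Fin 12 → ℕ :=
  ![![1, 0, 0, 0, 0, 0, 0, 0, 0, 0, 0, 0], ![0, 1, 0, 0, 0, 0, 0, 0, 0, 0, 0, 0],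
    ![0, 0, 1, 0, 0, 0, 0, 0, 0, 0, 0, 0], ![0, 0, 0, 1, 0, 0, 0, 0, 0, 0, 0, 0],
    ![0, 0, 0, 0, 1, 0, 0, 0, 0, 0, 0, 0], ![0, 0, 0, 0, 0, 1, 0, 0, 0, 0, 0, 0],
    ![0, 0, 0, 0, 0, 0, 1, 0, 0, 0, 0, 0], ![1, 2, 0, 0, 0, 0, 0, 0, 0, 0, 0, 0],
    ![0, 0, 0, 0, 0, 0, 0, 1, 0, 0, 0, 0], ![0, 0, 0, 0, 0, 0, 0, 0, 1, 0, 0, 0],
    ![0, 0, 0, 0, 0, 0, 0, 0, 0, 1, 0, 0], ![0, 0, 0, 0, 0, 0, 0, 0, 0, 0, 1, 0],
    ![0, 0, 0, 0, 0, 0, 0, 0, 0, 0, 0, 1]]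

/-- the disjunct number `i` -/
def frm_P (i : Fin 4) (x : ℚ) (Q : Fin 5 → ℚ) : Prop :=
  (![1, 1, 1, -3] i : ℚ) * x + (![1, -7, -2, 6] i : ℚ) * Q 0 + (![1, -7, -6, -6] i : ℚ) * Q 1 +
    (![1, -7, -6, -1] i : ℚ) * Q 2 + (![1, 0, 0, 0] i : ℚ) * Q 3 = 0 ∧
  (![0, 0, 0, 6] i : ℚ) * Q 0 + (![0, 0, 0, -294] i : ℚ) * Q 1 + (![0, 0, 0, -1] i : ℚ) * Q 3 +
    (![0, 0, 0, -3] i : ℚ) * Q 4 = 0

lemma frm_key (i : Fin 4) (x : ℚ) :
    (∃ y : Fin 12 → ℚ,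
      (∀ j : Fin 4, (frm_al i j : ℚ) * x + (∑ l : Fin 12, (frm_be i j l : ℚ) * y l) +
        (frm_ga j : ℚ) = 0) ∧
      (∀ j : Fin 13, IsSquare (((0 : ℕ) : ℚ) * x + (∑ l : Fin 12, (frm_q j l : ℚ) * y l) +
        ((0 : ℕ) : ℚ)))) ↔
    x ≠ 0 ∧ ∃ Q : Fin 5 → ℚ, (∀ n, IsSquare (Q n)) ∧ frm_P i x Q := by
  rw [Pool.Agent.H573R2.NonzeroPE.ne_zero_iff]
  constructor
  · rintro ⟨y, h1, h2⟩
    have e0 := h1 0
    have e1 := h1 1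
    have e2 := h1 2
    have e3 := h1 3
    have s0 := h2 0
    have s1 := h2 1
    have s2 := h2 2
    have s3 := h2 3
    have s4 := h2 4
    have s5 := h2 5
    have s6 := h2 6
    have s7 := h2 7
    have s8 := h2 8
    have s9 := h2 9
    have s10 := h2 10
    have s11 := h2 11
    have s12 := h2 12
    simp [frm_al, frm_be, frm_ga, frm_q, Fin.sum_univ_succ] at e0 e1 s0 s1 s2 s3 s4 s5 s6 s7 s8 s9 s10 s11 s12
    refine ⟨⟨y 0, y 1, y 2, y 3, y 4, y 5, by linarith, s2, s3, s4, s5, s1, s0, s7, ?_⟩,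
      ![y 7, y 8, y 9, y 10, y 11], ?_, ?_⟩
    · have : y 0 - 2 * y 1 + x = y 6 := by linarith
      rw [this]
      exact s6
    · intro n
      fin_cases n
      · exact s8
      · exact s9
      · exact s10
      · exact s11
      · exact s12
    · unfold frm_P
      fin_cases i
      · simp [frm_al, frm_be, frm_b2, frm_b3, frm_ga, Fin.sum_univ_succ] at e2 e3 ⊢
        linarith
      · simp [frm_al, frm_be, frm_b2, frm_b3, frm_ga, Fin.sum_univ_succ] at e2 e3 ⊢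
        linarith
      · simp [frm_al, frm_be, frm_b2, frm_b3, frm_ga, Fin.sum_univ_succ] at e2 e3 ⊢
        linarith
      · simp [frm_al, frm_be, frm_b2, frm_b3, frm_ga, Fin.sum_univ_succ] at e2 e3 ⊢
        constructor <;> linarith
  · rintro ⟨⟨u, v, a, b, c, d, hv, ha, hb, hc, hd, h2, h3, h4, h5⟩, Q, hQ, hP⟩
    refine ⟨![u, v, a, b, c, d, u - 2 * v + x, Q 0, Q 1, Q 2, Q 3, Q 4], ?_, ?_⟩
    · obtain ⟨p1, p2⟩ := hP
      intro j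
      fin_cases j
      · simp [frm_al, frm_be, frm_ga, Fin.sum_univ_succ]
        linarith
      · simp [frm_al, frm_be, frm_ga, Fin.sum_univ_succ]
        linarith
      · fin_cases i <;> simp [frm_al, frm_be, frm_b2, frm_ga, Fin.sum_univ_succ] at p1 ⊢ <;> linarith
      · fin_cases i <;> simp [frm_al, frm_be, frm_b3, frm_ga, Fin.sum_univ_succ] at p2 ⊢ <;> linarith
    · have q0 := hQ 0
      have q1 := hQ 1
      have q2 := hQ 2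
      have q3 := hQ 3
      have q4 := hQ 4
      intro j
      fin_cases j <;> simp [frm_q, Fin.sum_univ_succ] <;> assumption

lemma frm_sq (x : ℚ) : IsSquare x ↔ ∃ r : ℚ, x = r ^ 2 := by
  constructor
  · rintro ⟨r, rfl⟩; exact ⟨r, by ring⟩
  · rintro ⟨r, rfl⟩; exact ⟨r, by ring⟩

theorem t_FRM : S_FRM := by
  intro H
  refine ⟨4, 12, 4, 13, frm_al, frm_be, fun _ => frm_ga, fun _ => 0, fun _ => frm_q, fun _ => 0,
    fun x => ?_⟩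
  rw [H x]
  have hk := fun i => frm_key i x
  simp only [Pi.zero_apply]
  simp only [hk]
  constructor
  · rintro ⟨hx, h | h | h | h⟩
    · obtain ⟨a, b, c, d, h⟩ := h
      refine ⟨0, hx, ![a ^ 2, b ^ 2, c ^ 2, d ^ 2, 0], ?_, ?_⟩
      · intro n
        fin_cases n
        · exact (frm_sq _).2 ⟨a, rfl⟩
        · exact (frm_sq _).2 ⟨b, rfl⟩
        · exact (frm_sq _).2 ⟨c, rfl⟩
        · exact (frm_sq _).2 ⟨d, rfl⟩
        · exact (frm_sq _).2 ⟨0, by simp⟩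
      · simp [frm_P]; linarith
    · obtain ⟨a, b, c, h⟩ := h
      refine ⟨1, hx, ![a ^ 2, b ^ 2, c ^ 2, 0, 0], ?_, ?_⟩
      · intro n
        fin_cases n
        · exact (frm_sq _).2 ⟨a, rfl⟩
        · exact (frm_sq _).2 ⟨b, rfl⟩
        · exact (frm_sq _).2 ⟨c, rfl⟩
        · exact (frm_sq _).2 ⟨0, by simp⟩
        · exact (frm_sq _).2 ⟨0, by simp⟩
      · simp [frm_P]; linarith
    · obtain ⟨a, b, c, h⟩ := h
      refine ⟨2, hx, ![a ^ 2, b ^ 2, c ^ 2, 0, 0], ?_, ?_⟩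
      · intro n
        fin_cases n
        · exact (frm_sq _).2 ⟨a, rfl⟩
        · exact (frm_sq _).2 ⟨b, rfl⟩
        · exact (frm_sq _).2 ⟨c, rfl⟩
        · exact (frm_sq _).2 ⟨0, by simp⟩
        · exact (frm_sq _).2 ⟨0, by simp⟩
      · simp [frm_P]; linarith
    · obtain ⟨X, Y, Z, d, f, h1, h2⟩ := h
      refine ⟨3, hx, ![X ^ 2, Y ^ 2, Z ^ 2, d ^ 2, f ^ 2], ?_, ?_⟩
      · intro n
        fin_cases n
        · exact (frm_sq _).2 ⟨X, rfl⟩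
        · exact (frm_sq _).2 ⟨Y, rfl⟩
        · exact (frm_sq _).2 ⟨Z, rfl⟩
        · exact (frm_sq _).2 ⟨d, rfl⟩
        · exact (frm_sq _).2 ⟨f, rfl⟩
      · simp [frm_P]; constructor <;> linarith
  · rintro ⟨i, hx, Q, hQ, hP⟩
    refine ⟨hx, ?_⟩
    obtain ⟨r0, h0⟩ := (frm_sq _).1 (hQ 0)
    obtain ⟨r1, h1⟩ := (frm_sq _).1 (hQ 1)
    obtain ⟨r2, h2⟩ := (frm_sq _).1 (hQ 2)
    obtain ⟨r3, h3⟩ := (frm_sq _).1 (hQ 3)
    obtain ⟨r4, h4⟩ := (frm_sq _).1 (hQ 4)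
    unfold frm_P at hP
    rw [h0, h1, h2, h3, h4] at hP
    fin_cases i
    · left
      simp at hP
      exact ⟨r0, r1, r2, r3, by linarith⟩
    · right; left
      simp at hP
      exact ⟨r0, r1, r2, by linarith⟩
    · right; right; left
      simp at hP
      exact ⟨r0, r1, r2, by linarith⟩
    · right; right; right
      simp at hP
      exact ⟨r0, r1, r2, r3, r4, by linarith [hP.1], by linarith [hP.2]⟩

end H367PE
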