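import Pool.Agent.H367R2.PE.Defs

/-!
# The form `2 a² + 6 b² + 6 c²`, `x = 2 mod 3`
-/

set_option autoImplicit false

namespace H367PE

open NumberTheorySymbols jacobiSym

/-- a Dirichlet prime -/
theorem g3a_prime (m N : ℕ) (hm : Odd m) (h3 : m % 3 ≠ 0) :
    ∃ t : ℕ, t.Prime ∧ N < t ∧ t % 8 = 5 ∧ m ∣ 3 * t + 1 := by
  have hmod : m % 3 = 1 ∨ m % 3 = 2 := by omega
  obtain ⟨a, ha⟩ : ∃ a : ℕ, m ∣ 3 * a + 1 := by
    rcases hmod with h | h
    · refine ⟨(m - 1) / 3, 1, ?_⟩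
      omega
    · refine ⟨(2 * m - 1) / 3, 2, ?_⟩
      omega
  have hcop : Nat.Coprime 8 m := by
    have : Nat.Coprime (2 ^ 3) m := Nat.Coprime.pow_left 3 ((Nat.coprime_two_left).2 hm)
    simpa using this
  obtain ⟨c, hc1, hc2⟩ := Nat.chineseRemainder hcop 5 a
  have hc3 : m ∣ 3 * c + 1 := by
    have : 3 * c + 1 ≡ 3 * a + 1 [MOD m] := (hc2.mul_left 3).add_right 1
    exact (Nat.modEq_zero_iff_dvd).1 (this.trans ((Nat.modEq_zero_iff_dvd).2 ha))
  have hcc : Nat.Coprime c (8 * m) := by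
    apply Nat.Coprime.mul_right
    · have : Nat.Coprime c (2 ^ 3) := by
        apply Nat.Coprime.pow_right
        rw [Nat.coprime_two_right]
        rw [Nat.odd_iff]
        have : c % 8 = 5 := hc1
        omega
      simpa using this
    · have h1 : Nat.gcd c m ∣ 3 * c + 1 := (Nat.gcd_dvd_right c m).trans hc3
      have h2 : Nat.gcd c m ∣ 3 * c := (Nat.gcd_dvd_left c m).mul_left 3
      have h4 : Nat.gcd c m ∣ 1 := (Nat.dvd_add_right h2).1 h1
      exact Nat.dvd_one.1 h4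
  have hm0 : m ≠ 0 := by
    rintro rfl
    exact h3 rfl
  obtain ⟨t, htN, htp, ht⟩ := Nat.forall_exists_prime_gt_and_modEq N (q := 8 * m) (a := c)
    (by positivity) hcc
  refine ⟨t, htp, htN, ?_, ?_⟩
  · have h1 : t ≡ c [MOD 8] := ht.of_mul_right m
    have h2 : t ≡ 5 [MOD 8] := h1.trans hc1
    exact h2
  · have h1 : t ≡ c [MOD m] := ht.of_mul_left 8
    have : 3 * t + 1 ≡ 3 * c + 1 [MOD m] := (h1.mul_left 3).add_right 1
    exact (Nat.modEq_zero_iff_dvd).1 (this.trans ((Nat.modEq_zero_iff_dvd).2 hc3))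

theorem g3a_three (m : ℕ) (hm : Odd m) : J(-1 | m) * J(3 | m) = J(m | 3) := by
  rw [jacobiSym.at_neg_one hm, ZMod.χ₄_eq_neg_one_pow (Nat.odd_iff.1 hm)]
  have h := jacobiSym.quadratic_reciprocity (a := 3) (b := m) (by decide) hm
  have h' : J(3 | m) = (-1) ^ (m / 2) * J(m | 3) := by
    have e : ((3 : ℕ) : ℤ) = 3 := rfl
    rw [e] at h
    rw [h]
    norm_num
  rw [h', ← mul_assoc, ← pow_add, Even.neg_one_pow ⟨m / 2, rfl⟩, one_mul]

/-- the symbol of the odd part -/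
theorem g3a_symbol (m t : ℕ) (hm : Odd m) (h3 : m % 3 ≠ 0) (ht : t % 8 = 5)
    (hd : m ∣ 3 * t + 1) : J(m | t) = J(m | 3) := by
  have hto : Odd t := by
    rw [Nat.odd_iff]
    omega
  have h1 : J(t | m) = J(m | t) :=
    jacobiSym.quadratic_reciprocity_one_mod_four (by omega) hm
  rw [← h1, ← g3a_three m hm]
  -- `3 t = -1` modulo `m`
  have h2 : J((3 * t : ℤ) | m) = J(-1 | m) := by
    apply jacobiSym.mod_left'
    have : (3 * t : ℤ) ≡ -1 [ZMOD m] := by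
      rw [Int.modEq_iff_dvd]
      have h5 : (m : ℤ) ∣ (3 * t + 1 : ℤ) := by exact_mod_cast hd
      have e : (-1 - 3 * (t : ℤ)) = -(3 * t + 1) := by ring
      rw [e]
      exact h5.neg_right
    exact this
  rw [jacobiSym.mul_left] at h2
  have hsq : J(3 | m) * J(3 | m) = 1 := by
    rw [← jacobiSym.mul_left]
    have hg : Int.gcd 3 m = 1 := by
      have : Nat.Coprime 3 m := by
        rw [Nat.Prime.coprime_iff_not_dvd Nat.prime_three]
        omega
      exact_mod_cast this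
    have := jacobiSym.sq_one hg
    rw [pow_two] at this
    rw [jacobiSym.mul_left]
    exact this
  calc J(t | m) = (J(3 | m) * J(3 | m)) * J(t | m) := by rw [hsq, one_mul]
    _ = J(3 | m) * (J(3 | m) * J(t | m)) := by ring
    _ = J(3 | m) * J(-1 | m) := by rw [h2]
    _ = J(-1 | m) * J(3 | m) := by ring

/-- the rational representation -/
theorem g3a_main (h : S_LEG) (n m : ℕ) (hm : Odd m) (hn3 : n % 3 = 1) (hn : n = m ∨ n = 2 * m) :
    ∃ Z B C : ℚ, (n : ℚ) = Z ^ 2 + 3 * (B ^ 2 + C ^ 2) := by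
  have hm3 : m % 3 ≠ 0 := by omega
  obtain ⟨t, htp, htn, ht8, hmt⟩ := g3a_prime m (n + 3) hm hm3
  have : Fact t.Prime := ⟨htp⟩
  have hto : Odd t := by
    rw [Nat.odd_iff]
    omega
  have hn0 : 0 < n := by omega
  have hsym := g3a_symbol m t hm hm3 ht8 hmt
  -- `n` is a square modulo `t`
  have hJ : J(n | t) = 1 := by
    rcases hn with rfl | rfl
    · rw [hsym, jacobiSym.mod_left]
      have : ((n : ℤ) % ((3 : ℕ) : ℤ)) = 1 := by omega
      rw [this]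
      exact jacobiSym.one_left 3
    · have h5 : ((2 * m : ℕ) : ℤ) = 2 * (m : ℤ) := by push_cast; ring
      rw [h5, jacobiSym.mul_left, hsym, jacobiSym.at_two hto, ZMod.χ₈_nat_eq_if_mod_eight]
      have h6 : J(m | 3) = -1 := by
        rw [jacobiSym.mod_left]
        have : ((m : ℤ) % ((3 : ℕ) : ℤ)) = 2 := by omega
        rw [this]
        norm_num
      rw [h6]
      have h7 : ¬ (t % 2 = 0) := by omega
      have h8 : ¬ (t % 8 = 1 ∨ t % 8 = 7) := by omega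
      rw [if_neg h7, if_neg h8]
      norm_num
  have hsq := ZMod.isSquare_of_jacobiSym_eq_one hJ
  obtain ⟨r, hr⟩ := hsq
  -- lift to an integer
  have hr1 : (t : ℤ) ∣ (r.val : ℤ) ^ 2 - n := by
    rw [← ZMod.intCast_zmod_eq_zero_iff_dvd] 
    push_cast
    rw [ZMod.natCast_zmod_val]
    have : ((n : ℤ) : ZMod t) = (n : ZMod t) := by push_cast; rfl
    rw [this] at hr
    rw [hr]
    ring
  have ht3 : Nat.Coprime 3 t := by
    rw [Nat.coprime_primes Nat.prime_three htp]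
    omega
  obtain ⟨w, hw1, hw2⟩ := Nat.chineseRemainder ht3 1 r.val
  have hD : ((3 * t : ℕ) : ℤ) ∣ (w : ℤ) ^ 2 - n := by
    have e3 : ((3 : ℕ) : ℤ) ∣ (w : ℤ) ^ 2 - n := by
      have h1 : (w : ℤ) ≡ 1 [ZMOD 3] := by exact_mod_cast (Int.natCast_modEq_iff.2 hw1)
      have h2 : (n : ℤ) ≡ 1 [ZMOD 3] := by
        have : n ≡ 1 [MOD 3] := hn3
        exact_mod_cast (Int.natCast_modEq_iff.2 this)
      have h3 : (w : ℤ) ^ 2 ≡ n [ZMOD 3] := (h1.pow 2).trans (by simpa using h2.symm)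
      exact (Int.modEq_iff_dvd).1 h3.symm
    have et : ((t : ℕ) : ℤ) ∣ (w : ℤ) ^ 2 - n := by
      have h1 : (w : ℤ) ≡ (r.val : ℤ) [ZMOD t] := Int.natCast_modEq_iff.2 hw2
      have h3 : (w : ℤ) ^ 2 ≡ n [ZMOD t] :=
        (h1.pow 2).trans ((Int.modEq_iff_dvd).2 hr1).symm
      exact (Int.modEq_iff_dvd).1 h3.symm
    have hc : IsCoprime ((3 : ℕ) : ℤ) ((t : ℕ) : ℤ) := Nat.isCoprime_iff_coprime.2 ht3
    have := hc.mul_dvd e3 et
    push_cast at this ⊢
    exact this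
  have hcop : IsCoprime (n : ℤ) ((3 * t : ℕ) : ℤ) := by
    rw [Nat.isCoprime_iff_coprime]
    apply Nat.Coprime.mul_right
    · rw [Nat.coprime_comm, Nat.Prime.coprime_iff_not_dvd Nat.prime_three]
      omega
    · rw [Nat.coprime_comm, Nat.Prime.coprime_iff_not_dvd htp]
      intro hd
      have := Nat.le_of_dvd hn0 hd
      omega
  have hk : (n : ℤ) ∣ (1 : ℤ) ^ 2 + ((3 * t : ℕ) : ℤ) := by
    have : n ∣ 3 * t + 1 := by
      rcases hn with rfl | rfl
      · exact hmt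
      · have h2 : 2 ∣ 3 * t + 1 := by omega
        exact Nat.Coprime.mul_dvd_of_dvd_of_dvd ((Nat.coprime_two_left).2 hm) h2 hmt
    have h5 : (n : ℤ) ∣ ((3 * t + 1 : ℕ) : ℤ) := by exact_mod_cast this
    have e : (1 : ℤ) ^ 2 + ((3 * t : ℕ) : ℤ) = ((3 * t + 1 : ℕ) : ℤ) := by push_cast; ring
    rw [e]
    exact h5
  obtain ⟨x, y, z, hy, hxyz⟩ := h n ((3 * t : ℕ) : ℤ) (by exact_mod_cast hn0)
    (by have := htp.pos; positivity) hcop ⟨1, hk⟩ ⟨w, hD⟩
  obtain ⟨e, f, hef⟩ := Nat.Prime.sq_add_sq (p := t) (by omega)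
  have hyQ : (y : ℚ) ≠ 0 := by exact_mod_cast hy
  refine ⟨z / y, e * x / y, f * x / y, ?_⟩
  have hQ : (z : ℚ) ^ 2 + 3 * ((e : ℚ) ^ 2 + (f : ℚ) ^ 2) * (x : ℚ) ^ 2 = n * (y : ℚ) ^ 2 := by
    have h1 : ((z ^ 2 + ((3 * t : ℕ) : ℤ) * x ^ 2 : ℤ) : ℚ) = ((n * y ^ 2 : ℤ) : ℚ) := by
      rw [hxyz]
    rw [← hef] at h1
    push_cast at h1
    linarith
  field_simp
  linarith

theorem t_G3A (h : S_LEG) : S_G3A := by
  intro x hsq hx
  rcases Nat.even_or_odd x with he | ho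
  · obtain ⟨m, hm⟩ := he
    have hx2 : x = 2 * m := by omega
    have hmo : Odd m := by
      rw [← Nat.not_even_iff_odd]
      rintro ⟨k, hk⟩
      have h4 : 2 * 2 ∣ x := ⟨k, by omega⟩
      have := hsq 2 h4
      rw [Nat.isUnit_iff] at this
      omega
    obtain ⟨Z, B, C, hZ⟩ := g3a_main h m m hmo (by omega) (Or.inl rfl)
    refine ⟨Z, B, C, ?_⟩
    rw [hx2]
    push_cast
    rw [hZ]
    ring
  · obtain ⟨Z, B, C, hZ⟩ := g3a_main h (2 * x) x ho (by omega) (Or.inr rfl)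
    refine ⟨Z / 2, B / 2, C / 2, ?_⟩
    push_cast at hZ
    linarith

end H367PE
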