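import Pool.Agent.H367R2.PE.Defs

set_option autoImplicit false

namespace H367PE

theorem leg_count (n : ℕ) (hn : 0 < n) : ∃ c : ℕ, n ≤ c ^ 2 ∧ ∀ x < c, x ^ 2 < n := by
  refine ⟨Nat.sqrt (n - 1) + 1, ?_, ?_⟩
  · have := Nat.lt_succ_sqrt (n - 1)
    simp only [Nat.succ_eq_add_one] at this
    nlinarith [Nat.sub_add_cancel hn]
  · intro x hx
    have h1 : x ≤ Nat.sqrt (n - 1) := by omega
    have h2 := Nat.sqrt_le (n - 1)
    have h3 : x * x ≤ Nat.sqrt (n - 1) * Nat.sqrt (n - 1) := Nat.mul_le_mul h1 h1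
    have : x ^ 2 = x * x := sq x
    omega

theorem leg_diff {c n x y : ℕ} (hc : ∀ x < c, x ^ 2 < n) (hx : x < c) (hy : y < c) :
    ((x : ℤ) - y) ^ 2 < n := by
  rcases le_total x y with h | h
  · have h1 : y - x < c := by omega
    have h2 := hc _ h1
    have h3 : ((x : ℤ) - y) ^ 2 = ((y - x : ℕ) : ℤ) ^ 2 := by
      rw [Nat.cast_sub h]; ring
    rw [h3]
    exact_mod_cast h2
  · have h1 : x - y < c := by omega
    have h2 := hc _ h1
    have h3 : ((x : ℤ) - y) ^ 2 = ((x - y : ℕ) : ℤ) ^ 2 := by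
      rw [Nat.cast_sub h]
    rw [h3]
    exact_mod_cast h2

theorem t_LEG : S_LEG := by
  intro b D hb hD hcop hk hm
  obtain ⟨k, hk⟩ := hk
  obtain ⟨m, hm⟩ := hm
  by_cases hsq : ∃ β : ℤ, b = β ^ 2
  · obtain ⟨β, rfl⟩ := hsq
    exact ⟨0, 1, β, one_ne_zero, by ring⟩
  lift b to ℕ using hb.le
  lift D to ℕ using hD.le
  have hb' : 0 < b := by exact_mod_cast hb
  have hD' : 0 < D := by exact_mod_cast hD
  obtain ⟨A, hA1, hA2⟩ := leg_count b hb'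
  obtain ⟨B, hB1, hB2⟩ := leg_count D hD'
  obtain ⟨C, hC1, hC2⟩ := leg_count (b * D) (Nat.mul_pos hb' hD')
  have hA1' : b < A ^ 2 := by
    refine lt_of_le_of_ne hA1 fun h => hsq ⟨A, ?_⟩
    exact_mod_cast h
  have hcard : b * D < A * B * C := by
    have h1 : (b * D) ^ 2 < (A * B * C) ^ 2 := by
      calc (b * D) ^ 2 = b * D * (b * D) := by ring
        _ < A ^ 2 * D * (b * D) := by
          apply Nat.mul_lt_mul_of_pos_right _ (Nat.mul_pos hb' hD')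
          exact Nat.mul_lt_mul_of_pos_right hA1' hD'
        _ ≤ A ^ 2 * B ^ 2 * C ^ 2 :=
          Nat.mul_le_mul (Nat.mul_le_mul le_rfl hB1) hC1
        _ = (A * B * C) ^ 2 := by ring
    exact lt_of_pow_lt_pow_left₀ 2 (Nat.zero_le _) h1
  have : NeZero b := ⟨hb'.ne'⟩
  have : NeZero D := ⟨hD'.ne'⟩
  let f : ℕ × ℕ × ℕ → ZMod b × ZMod D := fun t =>
    ((((t.2.2 : ℤ) - k * t.1 : ℤ) : ZMod b), (((t.2.2 : ℤ) - m * t.2.1 : ℤ) : ZMod D))
  have hpig : (Finset.univ : Finset (ZMod b × ZMod D)).card <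
      (Finset.range A ×ˢ Finset.range B ×ˢ Finset.range C).card := by
    rw [Finset.card_univ, Fintype.card_prod, ZMod.card, ZMod.card, Finset.card_product,
      Finset.card_product, Finset.card_range, Finset.card_range, Finset.card_range, ← mul_assoc]
    exact hcard
  obtain ⟨t, ht, t', ht', hne, heq⟩ := Finset.exists_ne_map_eq_of_card_lt_of_maps_to hpig
    (f := f) (fun _ _ => Finset.mem_univ _)
  obtain ⟨x₁, y₁, z₁⟩ := t
  obtain ⟨x₂, y₂, z₂⟩ := t'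
  simp only [Finset.mem_product, Finset.mem_range] at ht ht'
  obtain ⟨hx₁, hy₁, hz₁⟩ := ht
  obtain ⟨hx₂, hy₂, hz₂⟩ := ht'
  simp only [f, Prod.mk.injEq] at heq
  obtain ⟨e1, e2⟩ := heq
  rw [ZMod.intCast_eq_intCast_iff_dvd_sub] at e1 e2
  set X : ℤ := (x₁ : ℤ) - x₂ with hX
  set Y : ℤ := (y₁ : ℤ) - y₂ with hY
  set Z : ℤ := (z₁ : ℤ) - z₂ with hZ
  have hX2 : X ^ 2 < b := leg_diff hA2 hx₁ hx₂
  have hY2 : Y ^ 2 < D := leg_diff hB2 hy₁ hy₂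
  have hZ2 : Z ^ 2 < b * D := by
    have := leg_diff hC2 hz₁ hz₂
    rwa [Nat.cast_mul] at this
  have d1 : (b : ℤ) ∣ Z - k * X := by
    have : Z - k * X = -(((z₂ : ℤ) - k * x₂) - ((z₁ : ℤ) - k * x₁)) := by rw [hZ, hX]; ring
    rw [this]
    exact (dvd_neg).2 e1
  have d2 : (D : ℤ) ∣ Z - m * Y := by
    have : Z - m * Y = -(((z₂ : ℤ) - m * y₂) - ((z₁ : ℤ) - m * y₁)) := by rw [hZ, hY]; ring
    rw [this]
    exact (dvd_neg).2 e2
  have hXYZ : ¬ (X = 0 ∧ Y = 0 ∧ Z = 0) := by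
    rintro ⟨h1, h2, h3⟩
    apply hne
    have g1 : x₁ = x₂ := by omega
    have g2 : y₁ = y₂ := by omega
    have g3 : z₁ = z₂ := by omega
    rw [g1, g2, g3]
  have n1 : (b : ℤ) ∣ Z ^ 2 + D * X ^ 2 - b * Y ^ 2 := by
    have : Z ^ 2 + D * X ^ 2 - b * Y ^ 2 =
        (Z - k * X) * (Z + k * X) + (k ^ 2 + D) * X ^ 2 - b * Y ^ 2 := by ring
    rw [this]
    exact dvd_sub (dvd_add (Dvd.dvd.mul_right d1 _) (Dvd.dvd.mul_right hk _)) (dvd_mul_right _ _)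
  have n2 : (D : ℤ) ∣ Z ^ 2 + D * X ^ 2 - b * Y ^ 2 := by
    have : Z ^ 2 + D * X ^ 2 - b * Y ^ 2 =
        (Z - m * Y) * (Z + m * Y) + (m ^ 2 - b) * Y ^ 2 + D * X ^ 2 := by ring
    rw [this]
    exact dvd_add (dvd_add (Dvd.dvd.mul_right d2 _) (Dvd.dvd.mul_right hm _)) (dvd_mul_right _ _)
  obtain ⟨q, hq⟩ := hcop.mul_dvd n1 n2
  have hbD : (0 : ℤ) < b * D := by positivity
  have hX0 : 0 ≤ X ^ 2 := sq_nonneg _
  have hY0 : 0 ≤ Y ^ 2 := sq_nonneg _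
  have hZ0 : 0 ≤ Z ^ 2 := sq_nonneg _
  have hup : (b : ℤ) * D * q < b * D * 2 := by
    rw [← hq]
    have h1 : (D : ℤ) * X ^ 2 < D * b := mul_lt_mul_of_pos_left hX2 hD
    have h2 : 0 ≤ (b : ℤ) * Y ^ 2 := by positivity
    linarith
  have hlo : (b : ℤ) * D * (-1) < b * D * q := by
    rw [← hq]
    have h1 : (b : ℤ) * Y ^ 2 < b * D := mul_lt_mul_of_pos_left hY2 hb
    have h2 : 0 ≤ (D : ℤ) * X ^ 2 := by positivity
    linarith
  have hq1 : q < 2 := lt_of_mul_lt_mul_left hup hbD.le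
  have hq2 : -1 < q := lt_of_mul_lt_mul_left hlo hbD.le
  have hq3 : q = 0 ∨ q = 1 := by omega
  rcases hq3 with rfl | rfl
  · refine ⟨X, Y, Z, ?_, by linarith⟩
    intro hY'
    apply hXYZ
    rw [hY'] at hq
    have h1 : Z ^ 2 + D * X ^ 2 = 0 := by linarith
    have h2 : 0 ≤ (D : ℤ) * X ^ 2 := by positivity
    have h3 : Z ^ 2 = 0 := by linarith
    have h4 : (D : ℤ) * X ^ 2 = 0 := by linarith
    have h5 : X ^ 2 = 0 := by
      rcases mul_eq_zero.1 h4 with h | h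
      · exact absurd h hD.ne'
      · exact h
    exact ⟨pow_eq_zero_iff (two_ne_zero) |>.1 h5, hY', pow_eq_zero_iff (two_ne_zero) |>.1 h3⟩
  · refine ⟨X * Y - Z, Y ^ 2 + D, Z * Y + D * X, by positivity, ?_⟩
    have h1 : Z ^ 2 + D * X ^ 2 = b * (Y ^ 2 + D) := by linarith
    calc (Z * Y + D * X) ^ 2 + D * (X * Y - Z) ^ 2
        = (Z ^ 2 + D * X ^ 2) * (Y ^ 2 + D) := by ring
      _ = b * (Y ^ 2 + D) ^ 2 := by rw [h1]; ring

end H367PE
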