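import Pool.Agent.H367R2.PE.Defs

set_option autoImplicit false

namespace H367PE

private lemma ref1_nd {P k t w z : ℤ} (hP : Prime P) (hk : ¬ P ∣ k) (ht : ¬ P ∣ t) (hw : P ∣ w)
    (hz : z = k * t + w) : ¬ P ∣ z := by
  intro h
  rw [hz] at h
  rcases hP.dvd_mul.1 ((dvd_add_left hw).1 h) with h1 | h1
  · exact hk h1
  · exact ht h1

private lemma ref1_mul {P k t : ℤ} (hP : Prime P) (hk : ¬ P ∣ k) (ht : ¬ P ∣ t) : ¬ P ∣ k * t := by
  intro h
  rcases hP.dvd_mul.1 h with h1 | h1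
  · exact hk h1
  · exact ht h1

/-- the property of the reflection vector modulo `p` -/
private def ref1_good (x : ℕ) (a0 b0 c0 : ℤ) (p : ℕ) (m1 m2 m3 : ℤ) : Prop :=
  (p = 3 → ¬ (3 : ℤ) ∣ m1) ∧
  ¬ (p : ℤ) ∣ (m1 ^ 2 + 6 * m2 ^ 2 + 18 * m3 ^ 2) * b0 - 2 * (a0 * m1 + 6 * b0 * m2 + 18 * c0 * m3) * m2 ∧
  (p ∣ x →
    ¬ (p : ℤ) ∣ (m1 ^ 2 + 6 * m2 ^ 2 + 18 * m3 ^ 2) * a0 - 2 * (a0 * m1 + 6 * b0 * m2 + 18 * c0 * m3) * m1 ∧
    ¬ (p : ℤ) ∣ (m1 ^ 2 + 6 * m2 ^ 2 + 18 * m3 ^ 2) * c0 - 2 * (a0 * m1 + 6 * b0 * m2 + 18 * c0 * m3) * m3)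

private lemma ref1_congr (x : ℕ) (a0 b0 c0 : ℤ) (p : ℕ) (m1 m2 m3 n1 n2 n3 : ℤ)
    (h1 : (p : ℤ) ∣ n1 - m1) (h2 : (p : ℤ) ∣ n2 - m2) (h3 : (p : ℤ) ∣ n3 - m3)
    (h : ref1_good x a0 b0 c0 p m1 m2 m3) : ref1_good x a0 b0 c0 p n1 n2 n3 := by
  obtain ⟨e1, e2, e3⟩ := h
  have c1 : (n1 : ZMod p) = m1 := by
    have := (ZMod.intCast_zmod_eq_zero_iff_dvd (n1 - m1) p).2 h1
    push_cast at this
    exact sub_eq_zero.1 this
  have c2 : (n2 : ZMod p) = m2 := by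
    have := (ZMod.intCast_zmod_eq_zero_iff_dvd (n2 - m2) p).2 h2
    push_cast at this
    exact sub_eq_zero.1 this
  have c3 : (n3 : ZMod p) = m3 := by
    have := (ZMod.intCast_zmod_eq_zero_iff_dvd (n3 - m3) p).2 h3
    push_cast at this
    exact sub_eq_zero.1 this
  refine ⟨?_, ?_, ?_⟩
  · intro hp hd
    subst hp
    apply e1 rfl
    have : m1 = n1 - (n1 - m1) := by ring
    rw [this]
    exact dvd_sub hd h1
  · intro hd
    apply e2
    rw [← ZMod.intCast_zmod_eq_zero_iff_dvd] at hd ⊢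
    rw [← hd]
    push_cast
    rw [c1, c2, c3]
  · intro hx
    obtain ⟨e4, e5⟩ := e3 hx
    constructor
    · intro hd
      apply e4
      rw [← ZMod.intCast_zmod_eq_zero_iff_dvd] at hd ⊢
      rw [← hd]
      push_cast
      rw [c1, c2, c3]
    · intro hd
      apply e5
      rw [← ZMod.intCast_zmod_eq_zero_iff_dvd] at hd ⊢
      rw [← hd]
      push_cast
      rw [c1, c2, c3]

private lemma ref1_five (s t : ℤ) (ht : ¬ (5 : ℤ) ∣ t) (h : (5 : ℤ) ∣ s ^ 2 + 3 * t ^ 2) : False := by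
  have h1 : ∀ s t : ZMod 5, t ≠ 0 → s ^ 2 + 3 * t ^ 2 ≠ 0 := by decide
  have h2 : ((t : ℤ) : ZMod 5) ≠ 0 := by
    intro h3
    exact ht ((ZMod.intCast_zmod_eq_zero_iff_dvd t 5).1 h3)
  apply h1 s t h2
  have := (ZMod.intCast_zmod_eq_zero_iff_dvd (s ^ 2 + 3 * t ^ 2) 5).2 h
  push_cast at this
  exact this

private lemma ref1_local (x : ℕ) (a0 b0 c0 : ℤ) (hsq : Squarefree x) (hx : x % 24 = 1)
    (hv : a0 ^ 2 + 6 * b0 ^ 2 + 18 * c0 ^ 2 = x) (p : ℕ) (hp : p.Prime) (hp2 : p ≠ 2) :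
    ∃ m1 m2 m3 : ℤ, ref1_good x a0 b0 c0 p m1 m2 m3 := by
  have hP : Prime (p : ℤ) := Nat.prime_iff_prime_int.1 hp
  by_cases hp3 : p = 3
  · subst hp3
    have hx3 : ¬ 3 ∣ x := by omega
    have ha0 : ¬ (3 : ℤ) ∣ a0 := by
      intro h
      obtain ⟨k, rfl⟩ := h
      have h1 : (x : ℤ) = 3 * (3 * k ^ 2 + 2 * b0 ^ 2 + 6 * c0 ^ 2) := by rw [← hv]; ring
      omega
    by_cases hb0 : (3 : ℤ) ∣ b0
    · refine ⟨1, 1, 0, fun _ => by norm_num, ?_, fun h => absurd h hx3⟩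
      have h2 : ¬ (3 : ℤ) ∣ -2 := by norm_num
      exact ref1_nd (P := (3 : ℤ)) (by exact_mod_cast hP) h2 ha0 (hb0.mul_left (-5)) (by ring)
    · refine ⟨1, 0, 0, fun _ => by norm_num, ?_, fun h => absurd h hx3⟩
      have e : ((1 : ℤ) ^ 2 + 6 * 0 ^ 2 + 18 * 0 ^ 2) * b0 - 2 * (a0 * 1 + 6 * b0 * 0 + 18 * c0 * 0) * 0
          = b0 := by ring
      rw [e]
      exact_mod_cast hb0
  have n2 : ¬ (p : ℤ) ∣ 2 := by
    intro h
    have : p ∣ 2 := by exact_mod_cast h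
    exact hp2 ((Nat.prime_dvd_prime_iff_eq hp Nat.prime_two).1 this)
  have n3 : ¬ (p : ℤ) ∣ 3 := by
    intro h
    have : p ∣ 3 := by exact_mod_cast h
    exact hp3 ((Nat.prime_dvd_prime_iff_eq hp Nat.prime_three).1 this)
  have n4 : ¬ (p : ℤ) ∣ 4 := by
    have := ref1_mul hP n2 n2; norm_num at this; exact this
  have n6 : ¬ (p : ℤ) ∣ 6 := by
    have := ref1_mul hP n2 n3; norm_num at this; exact this
  have n12 : ¬ (p : ℤ) ∣ 12 := by
    have := ref1_mul hP n2 n6; norm_num at this; exact this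
  have n18 : ¬ (p : ℤ) ∣ 18 := by
    have := ref1_mul hP n3 n6; norm_num at this; exact this
  have n24 : ¬ (p : ℤ) ∣ 24 := by
    have := ref1_mul hP n4 n6; norm_num at this; exact this
  have n36 : ¬ (p : ℤ) ∣ 36 := by
    have := ref1_mul hP n6 n6; norm_num at this; exact this
  have hm1 : ∀ k : ℤ, ¬ (p : ℤ) ∣ k → ¬ (p : ℤ) ∣ -k := fun k hk h => hk ((dvd_neg).1 h)
  by_cases hpx : p ∣ x
  · -- p divides x
    have hpx' : (p : ℤ) ∣ (x : ℤ) := by exact_mod_cast hpx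
    have hQ : (p : ℤ) ∣ a0 ^ 2 + 6 * b0 ^ 2 + 18 * c0 ^ 2 := by rw [hv]; exact hpx'
    have hnot : ¬ ((p : ℤ) ∣ a0 ∧ (p : ℤ) ∣ b0 ∧ (p : ℤ) ∣ c0) := by
      rintro ⟨⟨a, ha⟩, ⟨b, hb⟩, ⟨c, hc⟩⟩
      have h1 : ((p * p : ℕ) : ℤ) ∣ (x : ℤ) := by
        refine ⟨a ^ 2 + 6 * b ^ 2 + 18 * c ^ 2, ?_⟩
        rw [← hv, ha, hb, hc]
        push_cast
        ring
      have h2 : p * p ∣ x := by exact_mod_cast h1
      have h3 := hsq p h2
      exact hp.one_lt.ne' (Nat.isUnit_iff.1 h3)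
    have hab : (p : ℤ) ∣ a0 → (p : ℤ) ∣ b0 → False := by
      intro ha hb
      apply hnot
      refine ⟨ha, hb, ?_⟩
      have h1 : (p : ℤ) ∣ 18 * c0 ^ 2 := by
        have : 18 * c0 ^ 2 = (a0 ^ 2 + 6 * b0 ^ 2 + 18 * c0 ^ 2) - (a0 * a0 + 6 * b0 * b0) := by ring
        rw [this]
        exact dvd_sub hQ (dvd_add (ha.mul_left _) (hb.mul_left _))
      rcases hP.dvd_mul.1 h1 with h2 | h2
      · exact absurd h2 n18
      · exact hP.dvd_of_dvd_pow h2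
    have hac : (p : ℤ) ∣ a0 → (p : ℤ) ∣ c0 → False := by
      intro ha hc
      apply hnot
      refine ⟨ha, ?_, hc⟩
      have h1 : (p : ℤ) ∣ 6 * b0 ^ 2 := by
        have : 6 * b0 ^ 2 = (a0 ^ 2 + 6 * b0 ^ 2 + 18 * c0 ^ 2) - (a0 * a0 + 18 * c0 * c0) := by ring
        rw [this]
        exact dvd_sub hQ (dvd_add (ha.mul_left _) (hc.mul_left _))
      rcases hP.dvd_mul.1 h1 with h2 | h2
      · exact absurd h2 n6
      · exact hP.dvd_of_dvd_pow h2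
    have hbc : (p : ℤ) ∣ b0 → (p : ℤ) ∣ c0 → False := by
      intro hb hc
      apply hnot
      refine ⟨?_, hb, hc⟩
      have h1 : (p : ℤ) ∣ a0 ^ 2 := by
        have : a0 ^ 2 = (a0 ^ 2 + 6 * b0 ^ 2 + 18 * c0 ^ 2) - (6 * b0 * b0 + 18 * c0 * c0) := by ring
        rw [this]
        exact dvd_sub hQ (dvd_add (hb.mul_left _) (hc.mul_left _))
      exact hP.dvd_of_dvd_pow h1
    by_cases ha : (p : ℤ) ∣ a0
    · have hb : ¬ (p : ℤ) ∣ b0 := fun h => hab ha h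
      have hc : ¬ (p : ℤ) ∣ c0 := fun h => hac ha h
      have n5 : ¬ (p : ℤ) ∣ 5 := by
        intro h
        have h5 : p ∣ 5 := by exact_mod_cast h
        have h6 : p = 5 := (Nat.prime_dvd_prime_iff_eq hp Nat.prime_five).1 h5
        subst h6
        apply ref1_five b0 c0 (by exact_mod_cast hc)
        have h7 : (5 : ℤ) ∣ 6 * (b0 ^ 2 + 3 * c0 ^ 2) := by
          have : 6 * (b0 ^ 2 + 3 * c0 ^ 2) = (a0 ^ 2 + 6 * b0 ^ 2 + 18 * c0 ^ 2) - a0 * a0 := by ring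
          rw [this]
          exact dvd_sub (by exact_mod_cast hQ) ((show (5 : ℤ) ∣ a0 by exact_mod_cast ha).mul_left _)
        rcases (Nat.prime_iff_prime_int.1 Nat.prime_five).dvd_mul.1 (by exact_mod_cast h7) with h8 | h8
        · norm_num at h8
        · exact_mod_cast h8
      have n10 : ¬ (p : ℤ) ∣ 10 := by
        have := ref1_mul hP n2 n5; norm_num at this; exact this
      refine ⟨2, 1, 0, fun h => absurd h hp3, ?_, fun _ => ⟨?_, ?_⟩⟩
      · exact ref1_nd hP (hm1 2 n2) hb (ha.mul_left (-4)) (by ring)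
      · exact ref1_nd hP (hm1 24 n24) hb (ha.mul_left 2) (by ring)
      · exact ref1_nd hP n10 hc (dvd_zero _) (by ring)
    by_cases hb : (p : ℤ) ∣ b0
    · have hc : ¬ (p : ℤ) ∣ c0 := fun h => hbc hb h
      have n5 : ¬ (p : ℤ) ∣ 5 := by
        intro h
        have h5 : p ∣ 5 := by exact_mod_cast h
        have h6 : p = 5 := (Nat.prime_dvd_prime_iff_eq hp Nat.prime_five).1 h5
        subst h6
        apply ref1_five a0 c0 (by exact_mod_cast hc)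
        have h7 : a0 ^ 2 + 3 * c0 ^ 2 = (a0 ^ 2 + 6 * b0 ^ 2 + 18 * c0 ^ 2)
            - (6 * b0 * b0 + 5 * (3 * c0 ^ 2)) := by ring
        rw [h7]
        exact dvd_sub (by exact_mod_cast hQ)
          (dvd_add ((show (5 : ℤ) ∣ b0 by exact_mod_cast hb).mul_left _) (dvd_mul_right _ _))
      have n10 : ¬ (p : ℤ) ∣ 10 := by
        have := ref1_mul hP n2 n5; norm_num at this; exact this
      refine ⟨2, 1, 0, fun h => absurd h hp3, ?_, fun _ => ⟨?_, ?_⟩⟩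
      · exact ref1_nd hP (hm1 4 n4) ha (hb.mul_left (-2)) (by ring)
      · exact ref1_nd hP n2 ha (hb.mul_left (-24)) (by ring)
      · exact ref1_nd hP n10 hc (dvd_zero _) (by ring)
    by_cases hc : (p : ℤ) ∣ c0
    · refine ⟨0, 1, 1, fun h => absurd h hp3, ?_, fun _ => ⟨?_, ?_⟩⟩
      · exact ref1_nd hP n12 hb (hc.mul_left (-36)) (by ring)
      · exact ref1_nd hP n24 ha (dvd_zero _) (by ring)
      · exact ref1_nd hP (hm1 12 n12) hb (hc.mul_left (-12)) (by ring)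
    have n1 : ¬ (p : ℤ) ∣ 1 := fun h => hP.not_dvd_one h
    refine ⟨1, 0, 0, fun h => absurd h hp3, ?_, fun _ => ⟨?_, ?_⟩⟩
    · exact ref1_nd hP n1 hb (dvd_zero _) (by ring)
    · exact ref1_nd hP (hm1 1 n1) ha (dvd_zero _) (by ring)
    · exact ref1_nd hP n1 hc (dvd_zero _) (by ring)
  · have n1 : ¬ (p : ℤ) ∣ 1 := fun h => hP.not_dvd_one h
    by_cases hb : (p : ℤ) ∣ b0
    · by_cases ha : (p : ℤ) ∣ a0
      · have hc : ¬ (p : ℤ) ∣ c0 := by
          intro hc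
          apply hpx
          have : (p : ℤ) ∣ (x : ℤ) := by
            rw [← hv]
            have : a0 ^ 2 + 6 * b0 ^ 2 + 18 * c0 ^ 2 = a0 * a0 + 6 * b0 * b0 + 18 * c0 * c0 := by ring
            rw [this]
            exact dvd_add (dvd_add (ha.mul_left _) (hb.mul_left _)) (hc.mul_left _)
          exact_mod_cast this
        refine ⟨0, 1, 1, fun h => absurd h hp3, ?_, fun h => absurd h hpx⟩
        exact ref1_nd hP (hm1 36 n36) hc (hb.mul_left 12) (by ring)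
      · refine ⟨1, 1, 0, fun h => absurd h hp3, ?_, fun h => absurd h hpx⟩
        exact ref1_nd hP (hm1 2 n2) ha (hb.mul_left (-5)) (by ring)
    · refine ⟨1, 0, 0, fun h => absurd h hp3, ?_, fun h => absurd h hpx⟩
      exact ref1_nd hP n1 hb (dvd_zero _) (by ring)

private lemma ref1_crt (S : Finset ℕ) (hS : ∀ p ∈ S, p.Prime) (f : ℕ → ℤ) :
    ∃ n : ℤ, ∀ p ∈ S, (p : ℤ) ∣ n - f p := by
  classical
  induction S using Finset.induction_on with
  | empty => exact ⟨0, by simp⟩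
  | insert q S hq ih =>
    obtain ⟨n, hn⟩ := ih fun p hp => hS p (Finset.mem_insert_of_mem hp)
    have hcop : IsCoprime ((∏ p ∈ S, (p : ℤ))) (q : ℤ) := by
      refine IsCoprime.prod_left fun p hp => ?_
      rw [Nat.isCoprime_iff_coprime]
      exact (Nat.coprime_primes (hS p (Finset.mem_insert_of_mem hp))
        (hS q (Finset.mem_insert_self _ _))).2 (fun h => hq (h ▸ hp))
    obtain ⟨a, b, hab⟩ := hcop
    -- n + M * a * (f q - n)
    refine ⟨n + (∏ p ∈ S, (p : ℤ)) * (a * (f q - n)), fun p hp => ?_⟩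
    rcases Finset.mem_insert.1 hp with rfl | hp
    · have : n + (∏ p ∈ S, (p : ℤ)) * (a * (f p - n)) - f p = (p : ℤ) * (b * (n - f p)) := by
        linear_combination (f p - n) * hab
      rw [this]
      exact dvd_mul_right _ _
    · have h1 : (p : ℤ) ∣ ∏ p ∈ S, (p : ℤ) := Finset.dvd_prod_of_mem (fun p : ℕ => (p : ℤ)) hp
      have h2 := hn p hp
      have : n + (∏ p ∈ S, (p : ℤ)) * (a * (f q - n)) - f p
          = (n - f p) + (∏ p ∈ S, (p : ℤ)) * (a * (f q - n)) := by ring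
      rw [this]
      exact dvd_add h2 (h1.mul_right _)

theorem t_REF1 : S_REF1 := by
  intro x α a0 b0 c0 hsq hx hα hodd hv
  classical
  have hx0 : x ≠ 0 := by rintro rfl; simp at hx
  set S : Finset ℕ := insert 3 (α.natAbs.primeFactors ∪ x.primeFactors) with hS
  have hSp : ∀ p ∈ S, p.Prime := by
    intro p hp
    rw [hS, Finset.mem_insert, Finset.mem_union] at hp
    rcases hp with rfl | hp | hp
    · exact Nat.prime_three
    · exact Nat.prime_of_mem_primeFactors hp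
    · exact Nat.prime_of_mem_primeFactors hp
  have hS2 : ∀ p ∈ S, p ≠ 2 := by
    intro p hp
    rw [hS, Finset.mem_insert, Finset.mem_union] at hp
    rintro rfl
    rcases hp with hp | hp | hp
    · omega
    · have h1 := Nat.dvd_of_mem_primeFactors hp
      have h2 : (2 : ℤ) ∣ α := by
        have := Int.natCast_dvd_natCast.2 h1
        rw [Int.dvd_natAbs] at this
        exact_mod_cast this
      obtain ⟨k, hk⟩ := hodd
      omega
    · have h1 := Nat.dvd_of_mem_primeFactors hp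
      omega
  have hloc : ∀ p : ℕ, ∃ m : ℤ × ℤ × ℤ, p ∈ S → ref1_good x a0 b0 c0 p m.1 m.2.1 m.2.2 := by
    intro p
    by_cases hp : p ∈ S
    · obtain ⟨m1, m2, m3, h⟩ := ref1_local x a0 b0 c0 hsq hx hv p (hSp p hp) (hS2 p hp)
      exact ⟨(m1, m2, m3), fun _ => h⟩
    · exact ⟨0, fun h => absurd h hp⟩
  choose m hm using hloc
  obtain ⟨n1, h1⟩ := ref1_crt S hSp (fun p => (m p).1)
  obtain ⟨n2, h2⟩ := ref1_crt S hSp (fun p => (m p).2.1)
  obtain ⟨n3, h3⟩ := ref1_crt S hSp (fun p => (m p).2.2)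
  have hg : ∀ p ∈ S, ref1_good x a0 b0 c0 p n1 n2 n3 := fun p hp =>
    ref1_congr x a0 b0 c0 p _ _ _ _ _ _ (h1 p hp) (h2 p hp) (h3 p hp) (hm p hp)
  have h3S : 3 ∈ S := by rw [hS]; exact Finset.mem_insert_self _ _
  have hn1 : ¬ (3 : ℤ) ∣ n1 := (hg 3 h3S).1 rfl
  have hn1' : n1 ≠ 0 := by rintro rfl; exact hn1 (dvd_zero _)
  refine ⟨(n1 ^ 2 + 6 * n2 ^ 2 + 18 * n3 ^ 2) * a0 - 2 * (a0 * n1 + 6 * b0 * n2 + 18 * c0 * n3) * n1,
    (n1 ^ 2 + 6 * n2 ^ 2 + 18 * n3 ^ 2) * b0 - 2 * (a0 * n1 + 6 * b0 * n2 + 18 * c0 * n3) * n2,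
    (n1 ^ 2 + 6 * n2 ^ 2 + 18 * n3 ^ 2) * c0 - 2 * (a0 * n1 + 6 * b0 * n2 + 18 * c0 * n3) * n3,
    n1 ^ 2 + 6 * n2 ^ 2 + 18 * n3 ^ 2, ?_, ?_, ?_, ?_, ?_⟩
  · have : 0 < n1 ^ 2 := by positivity
    nlinarith [sq_nonneg n2, sq_nonneg n3]
  · rw [← hv]; ring
  · exact (hg 3 h3S).2.1
  · intro p hp hpα
    have hpS : p ∈ S := by
      rw [hS, Finset.mem_insert, Finset.mem_union]
      right; left
      rw [Nat.mem_primeFactors]
      refine ⟨hp, ?_, ?_⟩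
      · rw [← Int.natCast_dvd_natCast, Int.dvd_natAbs]; exact hpα
      · omega
    exact (hg p hpS).2.1
  · intro p hp hpx
    have hpS : p ∈ S := by
      rw [hS, Finset.mem_insert, Finset.mem_union]
      right; right
      rw [Nat.mem_primeFactors]
      exact ⟨hp, hpx, hx0⟩
    obtain ⟨-, e2, e3⟩ := hg p hpS
    exact ⟨(e3 hpx).1, e2, (e3 hpx).2⟩

end H367PE
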