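import Pool.Agent.H367R2.PE.Defs

set_option autoImplicit false

namespace H367PE

theorem ref2_CRT : S_CRT := by
  classical
  intro S hS f
  induction S using Finset.induction_on with
  | empty => exact ⟨0, fun p hp => absurd hp (Finset.notMem_empty p)⟩
  | insert p S hp ih =>
    obtain ⟨n, hn⟩ := ih (fun q hq => hS q (Finset.mem_insert_of_mem hq))
    have hcop : IsCoprime (∏ q ∈ S, (q : ℤ)) (p : ℤ) := by
      apply IsCoprime.prod_left
      intro q hq
      apply Nat.isCoprime_iff_coprime.2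
      exact (Nat.coprime_primes (hS q (Finset.mem_insert_of_mem hq))
        (hS p (Finset.mem_insert_self p S))).2 (fun e => hp (e ▸ hq))
    obtain ⟨s, t, hst⟩ := hcop
    refine ⟨n + (∏ q ∈ S, (q : ℤ)) * s * (f p - n), ?_⟩
    intro q hq
    rcases Finset.mem_insert.1 hq with rfl | hq'
    · refine ⟨(n - f q) * t, ?_⟩
      linear_combination (f q - n) * hst
    · obtain ⟨k, hk⟩ := hn q hq'
      obtain ⟨m, hm⟩ := Finset.dvd_prod_of_mem (fun q : ℕ => (q : ℤ)) hq'
      refine ⟨k + m * s * (f p - n), ?_⟩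
      rw [hm]
      linear_combination hk

/-- the arithmetic alternative modulo a prime `p` dividing `x` -/
theorem ref2_field {F : Type*} [Field F] (l u v a b c g x : F) (h2 : (2 : F) ≠ 0)
    (h3 : (3 : F) ≠ 0) (hx : x = 0) (hl : l = 9 * u ^ 2 + 2 * v ^ 2) (hl0 : l ≠ 0)
    (hcop : ¬ (u = 0 ∧ v = 0)) (hQ : a ^ 2 + 6 * b ^ 2 + 18 * c ^ 2 = x * g ^ 2)
    (ha : a ≠ 0) (hb : b ≠ 0) (hc : c ≠ 0)
    (h1 : (8 * u ^ 2 + v ^ 2) * (a * v + 9 * u * c) ^ 2 + 24 * l * u ^ 2 * b ^ 2 = 0)
    (h1' : (8 * u ^ 2 + v ^ 2) * (-a * v + 9 * u * c) ^ 2 + 24 * l * u ^ 2 * b ^ 2 = 0) :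
    False := by
  have h36 : (36 : F) ≠ 0 := by
    have : (36 : F) = 2 * 2 * 3 * 3 := by norm_num
    rw [this]
    exact mul_ne_zero (mul_ne_zero (mul_ne_zero h2 h2) h3) h3
  have h24 : (24 : F) ≠ 0 := by
    have : (24 : F) = 2 * 2 * 2 * 3 := by norm_num
    rw [this]
    exact mul_ne_zero (mul_ne_zero (mul_ne_zero h2 h2) h2) h3
  have hd : 36 * (8 * u ^ 2 + v ^ 2) * u * v * a * c = 0 := by
    linear_combination h1 - h1'
  have hd2 : (8 * u ^ 2 + v ^ 2) = 0 ∨ u = 0 ∨ v = 0 := by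
    by_contra hcon
    push Not at hcon
    obtain ⟨k1, k2, k3⟩ := hcon
    exact mul_ne_zero (mul_ne_zero (mul_ne_zero (mul_ne_zero (mul_ne_zero h36 k1) k2) k3) ha) hc hd
  rcases hd2 with hα | hu | hv
  · have h5 : 24 * l * u ^ 2 * b ^ 2 = 0 := by
      rw [hα, zero_mul, zero_add] at h1
      exact h1
    have hu : u = 0 := by
      by_contra hu
      exact mul_ne_zero (mul_ne_zero (mul_ne_zero h24 hl0) (pow_ne_zero 2 hu))
        (pow_ne_zero 2 hb) h5
    have hv : v = 0 := by
      rw [hu] at hα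
      have : v ^ 2 = 0 := by linear_combination hα
      exact pow_eq_zero_iff (two_ne_zero) |>.1 this
    exact hcop ⟨hu, hv⟩
  · have h5 : v ^ 4 * a ^ 2 = 0 := by
      rw [hu] at h1
      linear_combination h1
    have hv : v = 0 := by
      by_contra hv
      exact mul_ne_zero (pow_ne_zero 4 hv) (pow_ne_zero 2 ha) h5
    exact hcop ⟨hu, hv⟩
  · have h5 : 36 * u ^ 4 * a ^ 2 = 0 := by
      rw [hv] at h1 hl
      rw [hx] at hQ
      rw [hl] at h1
      linear_combination (-1 : F) * h1 + 36 * u ^ 4 * hQ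
    have hu : u = 0 := by
      by_contra hu
      exact mul_ne_zero (mul_ne_zero h36 (pow_ne_zero 4 hu)) (pow_ne_zero 2 ha) h5
    exact hcop ⟨hu, hv⟩

theorem t_REF2 : S_REF2 := by
  classical
  intro x l u v a b c g hsq hx24 hv hl huv hlx hg hQ h3 hα hx
  have hx0 : x ≠ 0 := hsq.ne_zero
  have hαpos : 0 < 8 * u ^ 2 + v ^ 2 := by
    have hv0 : v ≠ 0 := by
      rintro rfl
      simp at hv
    positivity
  set G : ℤ := (8 * u ^ 2 + v ^ 2) * (a * v + 9 * u * c) ^ 2 + 24 * l * u ^ 2 * b ^ 2 with hG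
  let S : Finset ℕ := insert 3 ((8 * u ^ 2 + v ^ 2).natAbs.primeFactors ∪ x.primeFactors)
  let f : ℕ → ℤ := fun p => if p ∣ x ∧ ¬ (p : ℤ) ∣ G then 0 else 1
  have hSp : ∀ p ∈ S, p.Prime := by
    intro p hp
    rcases Finset.mem_insert.1 hp with rfl | hp
    · exact Nat.prime_three
    · rcases Finset.mem_union.1 hp with hp | hp
      · exact Nat.prime_of_mem_primeFactors hp
      · exact Nat.prime_of_mem_primeFactors hp
  obtain ⟨n, hn⟩ := ref2_CRT S hSp f
  have hbig : ∀ p : ℕ, p.Prime → p ∣ x → ((2 : ZMod p) ≠ 0 ∧ (3 : ZMod p) ≠ 0) := by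
    intro p hp hpx
    have h2 : ¬ p ∣ 2 := by
      intro h
      have : p = 2 := (Nat.prime_dvd_prime_iff_eq hp Nat.prime_two).1 h
      subst this
      omega
    have h3 : ¬ p ∣ 3 := by
      intro h
      have : p = 3 := (Nat.prime_dvd_prime_iff_eq hp Nat.prime_three).1 h
      subst this
      omega
    constructor
    · intro h
      apply h2
      have : ((2 : ℕ) : ZMod p) = 0 := by exact_mod_cast h
      exact (ZMod.natCast_eq_zero_iff 2 p).1 this
    · intro h
      apply h3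
      have : ((3 : ℕ) : ZMod p) = 0 := by exact_mod_cast h
      exact (ZMod.natCast_eq_zero_iff 3 p).1 this
  have hz : ∀ (p : ℕ) (k : ℤ), ((k : ZMod p) = 0 ↔ (p : ℤ) ∣ k) := fun p k =>
    ZMod.intCast_zmod_eq_zero_iff_dvd k p
  -- `n` modulo the primes
  have hn1 : ∀ p ∈ S, f p = 1 → (n : ZMod p) = 1 := by
    intro p hp h
    have h1 := hn p hp
    rw [h] at h1
    have h2 := (hz p _).2 h1
    push_cast at h2
    exact sub_eq_zero.1 h2
  have hn0 : ∀ p ∈ S, f p = 0 → (n : ZMod p) = 0 := by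
    intro p hp h
    have h1 := hn p hp
    rw [h] at h1
    have h2 := (hz p _).2 h1
    push_cast at h2
    rw [sub_zero] at h2
    exact h2
  have hf3 : f 3 = 1 := by
    simp only [f]
    rw [if_neg]
    rintro ⟨h, _⟩
    omega
  have hn3 : (n : ZMod 3) = 1 := hn1 3 (Finset.mem_insert_self _ _) hf3
  have hn_ne : n ≠ 0 := by
    rintro rfl
    revert hn3
    decide
  set q : ℤ := n ^ 2 + 6 * (1 - n) ^ 2 with hq
  have hq0 : 0 < q := by positivity
  set B : ℤ := a * n + 6 * b * (1 - n) with hB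
  refine ⟨q * a - 2 * B * n, q * b - 2 * B * (1 - n), q * c, q * g, mul_ne_zero hq0.ne' hg,
    ?_, ?_, ?_, ?_⟩
  · rw [hq, hB]
    linear_combination (n ^ 2 + 6 * (1 - n) ^ 2) ^ 2 * hQ
  · have h3' : ((b : ℤ) : ZMod 3) ≠ 0 := fun h => h3 (by exact_mod_cast (hz 3 b).1 h)
    intro hdvd
    have h4 := (hz 3 (q * b - 2 * B * (1 - n))).2 (by exact_mod_cast hdvd)
    rw [hq, hB] at h4
    push_cast at h4
    rw [hn3] at h4
    apply h3'
    linear_combination h4
  · intro p hp hpα
    have hmem : p ∈ S := by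
      apply Finset.mem_insert_of_mem
      apply Finset.mem_union_left
      rw [Nat.mem_primeFactors]
      refine ⟨hp, ?_, ?_⟩
      · exact Int.natCast_dvd.1 hpα
      · exact Int.natAbs_ne_zero.2 hαpos.ne'
    have : Fact p.Prime := ⟨hp⟩
    have hb0 := hα p hp hpα
    rw [← hz] at hb0 ⊢
    rw [hq, hB]
    push_cast
    by_cases h : p ∣ x ∧ ¬ (p : ℤ) ∣ G
    · have hfp : f p = 0 := if_pos h
      rw [hn0 p hmem hfp]
      obtain ⟨k2, k3⟩ := hbig p hp h.1
      intro h0
      have : (2 : ZMod p) * 3 * b = 0 := by linear_combination (-1 : ZMod p) * h0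
      exact mul_ne_zero (mul_ne_zero k2 k3) hb0 this
    · have hfp : f p = 1 := if_neg h
      rw [hn1 p hmem hfp]
      simpa using hb0
  · intro p hp hpx
    have hmem : p ∈ S := by
      apply Finset.mem_insert_of_mem
      apply Finset.mem_union_right
      rw [Nat.mem_primeFactors]
      exact ⟨hp, hpx, hx0⟩
    have : Fact p.Prime := ⟨hp⟩
    obtain ⟨ha0, hb0, hc0⟩ := hx p hp hpx
    obtain ⟨k2, k3⟩ := hbig p hp hpx
    rw [← hz] at ha0 hb0 hc0 ⊢
    by_cases h : p ∣ x ∧ ¬ (p : ℤ) ∣ G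
    · have hfp : f p = 0 := if_pos h
      have hG0 : (G : ZMod p) ≠ 0 := fun h0 => h.2 ((hz p G).1 h0)
      rw [hq, hB]
      push_cast
      rw [hn0 p hmem hfp]
      intro h0
      rw [hG] at hG0
      push_cast at hG0
      have : (2 : ZMod p) * 3 * 2 * 3 * ((8 * (u : ZMod p) ^ 2 + v ^ 2) * (a * v + 9 * u * c) ^ 2 +
          24 * l * u ^ 2 * b ^ 2) = 0 := by
        linear_combination h0
      exact mul_ne_zero (mul_ne_zero (mul_ne_zero (mul_ne_zero k2 k3) k2) k3) hG0 this
    · have hfp : f p = 1 := if_neg h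
      have hG0 : (G : ZMod p) = 0 := by
        rw [hz]
        by_contra h5
        exact h ⟨hpx, h5⟩
      rw [hq, hB]
      push_cast
      rw [hn1 p hmem hfp]
      intro h0
      rw [hG] at hG0
      push_cast at hG0
      have hxz : (x : ZMod p) = 0 := (ZMod.natCast_eq_zero_iff x p).2 hpx
      apply ref2_field (l : ZMod p) u v a b c g x k2 k3 hxz
      · rw [hl]; push_cast; ring
      · intro hl0
        rw [hz] at hl0
        have h6 : IsCoprime (p : ℤ) (p : ℤ) :=
          IsCoprime.of_isCoprime_of_dvd_left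
            (IsCoprime.of_isCoprime_of_dvd_right hlx (Int.natCast_dvd_natCast.2 hpx)) hl0
        have h7 := isCoprime_self.1 h6
        have h8 : (p : ℤ).natAbs = 1 := Int.isUnit_iff_natAbs_eq.1 h7
        simp at h8
        exact hp.one_lt.ne' h8
      · rintro ⟨hu0, hv0⟩
        rw [hz] at hu0 hv0
        have h6 : IsCoprime (p : ℤ) (p : ℤ) :=
          IsCoprime.of_isCoprime_of_dvd_left
            (IsCoprime.of_isCoprime_of_dvd_right huv hv0) hu0
        have h7 := isCoprime_self.1 h6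
        have h8 : (p : ℤ).natAbs = 1 := Int.isUnit_iff_natAbs_eq.1 h7
        simp at h8
        exact hp.one_lt.ne' h8
      · have := congrArg (fun k : ℤ => (k : ZMod p)) hQ
        push_cast at this
        exact this
      · exact ha0
      · exact hb0
      · exact hc0
      · exact hG0
      · linear_combination h0

end H367PE
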