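import Pool.Agent.H367R2.PE.Defs

/-!
# S73: soundness of the two ternary forms
-/

set_option autoImplicit false

namespace H367PE

theorem s73_sq8 (x : ℤ) : (x % 2 = 0 ∧ (x ^ 2 % 8 = 0 ∨ x ^ 2 % 8 = 4)) ∨ (x % 2 = 1 ∧ x ^ 2 % 8 = 1) := by
  have h : x % 8 = 0 ∨ x % 8 = 1 ∨ x % 8 = 2 ∨ x % 8 = 3 ∨ x % 8 = 4 ∨ x % 8 = 5 ∨ x % 8 = 6 ∨ x % 8 = 7 := by
    omega
  have h2 : x ^ 2 % 8 = (x % 8) * (x % 8) % 8 := by rw [pow_two, Int.mul_emod]
  rcases h with h | h | h | h | h | h | h | h <;> rw [h] at h2 <;> norm_num at h2 <;> omega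

theorem s73_sq3 (x : ℤ) : (x % 3 = 0 ∧ x ^ 2 % 3 = 0) ∨ (x % 3 ≠ 0 ∧ x ^ 2 % 3 = 1) := by
  have h : x % 3 = 0 ∨ x % 3 = 1 ∨ x % 3 = 2 := by omega
  have h2 : x ^ 2 % 3 = (x % 3) * (x % 3) % 3 := by rw [pow_two, Int.mul_emod]
  rcases h with h | h | h <;> rw [h] at h2 <;> norm_num at h2 <;> omega

theorem s73_int7 (n : ℕ) : ∀ w a b c : ℤ, w.natAbs = n → w ≠ 0 → w ^ 2 ≠ 7 * (a ^ 2 + b ^ 2 + c ^ 2) := by
  induction n using Nat.strong_induction_on with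
  | _ n ih =>
    intro w a b c hn hw h
    have hw8 := s73_sq8 w
    have ha8 := s73_sq8 a
    have hb8 := s73_sq8 b
    have hc8 := s73_sq8 c
    have h1 : w % 2 = 0 ∧ a % 2 = 0 ∧ b % 2 = 0 ∧ c % 2 = 0 := by omega
    obtain ⟨⟨w', rfl⟩, ⟨a', rfl⟩, ⟨b', rfl⟩, ⟨c', rfl⟩⟩ :
        (2 ∣ w) ∧ (2 ∣ a) ∧ (2 ∣ b) ∧ (2 ∣ c) := by omega
    refine ih w'.natAbs ?_ w' a' b' c' rfl ?_ ?_
    · have : w' ≠ 0 := by rintro rfl; exact hw (by norm_num)
      omega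
    · rintro rfl; exact hw (by norm_num)
    · nlinarith [h]

theorem s73_int3 (n : ℕ) : ∀ w a b c : ℤ, w.natAbs = n → w ≠ 0 →
    w ^ 2 ≠ 2 * a ^ 2 + 6 * b ^ 2 + 6 * c ^ 2 := by
  induction n using Nat.strong_induction_on with
  | _ n ih =>
    intro w a b c hn hw h
    have hw3 := s73_sq3 w
    have ha3 := s73_sq3 a
    have hb3 := s73_sq3 b
    have hc3 := s73_sq3 c
    have h1 : w % 3 = 0 ∧ a % 3 = 0 := by omega
    obtain ⟨⟨w', rfl⟩, ⟨a', rfl⟩⟩ : (3 ∣ w) ∧ (3 ∣ a) := by omega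
    have h2 : 3 * w' ^ 2 = 6 * a' ^ 2 + 2 * (b ^ 2 + c ^ 2) := by nlinarith [h]
    have h3 : b % 3 = 0 ∧ c % 3 = 0 := by omega
    obtain ⟨⟨b', rfl⟩, ⟨c', rfl⟩⟩ : (3 ∣ b) ∧ (3 ∣ c) := by omega
    refine ih w'.natAbs ?_ w' a' b' c' rfl ?_ ?_
    · have : w' ≠ 0 := by rintro rfl; exact hw (by norm_num)
      omega
    · rintro rfl; exact hw (by norm_num)
    · nlinarith [h2]

/-- S73: soundness of the two ternary forms. -/
theorem t_S73 : S_S73 := by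
  intro w hw
  have key : ∀ a b c : ℚ, ∃ W A B C N : ℤ, N ≠ 0 ∧ (W : ℚ) = w * N ∧ (A : ℚ) = a * N ∧
      (B : ℚ) = b * N ∧ (C : ℚ) = c * N := by
    intro a b c
    refine ⟨w.num * a.den * b.den * c.den, w.den * a.num * b.den * c.den,
      w.den * a.den * b.num * c.den, w.den * a.den * b.den * c.num,
      w.den * a.den * b.den * c.den, ?_, ?_, ?_, ?_, ?_⟩
    · have h1 := w.den_ne_zero
      have h2 := a.den_ne_zero
      have h3 := b.den_ne_zero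
      have h4 := c.den_ne_zero
      positivity
    · push_cast
      have h := Rat.mul_den_eq_num w
      rw [← h]; ring
    · push_cast
      have h := Rat.mul_den_eq_num a
      rw [← h]; ring
    · push_cast
      have h := Rat.mul_den_eq_num b
      rw [← h]; ring
    · push_cast
      have h := Rat.mul_den_eq_num c
      rw [← h]; ring
  constructor
  · rintro ⟨a, b, c, h⟩
    obtain ⟨W, A, B, C, N, hN, hW, hA, hB, hC⟩ := key a b c
    have hNq : (N : ℚ) ≠ 0 := by exact_mod_cast hN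
    have hW0 : W ≠ 0 := by
      intro h0
      rw [h0] at hW
      exact mul_ne_zero hw hNq (by rw [← hW]; norm_num)
    refine s73_int7 _ W A B C rfl hW0 ?_
    have : (W : ℚ) ^ 2 = 7 * ((A : ℚ) ^ 2 + (B : ℚ) ^ 2 + (C : ℚ) ^ 2) := by
      rw [hW, hA, hB, hC, mul_pow, h]; ring
    exact_mod_cast this
  · rintro ⟨a, b, c, h⟩
    obtain ⟨W, A, B, C, N, hN, hW, hA, hB, hC⟩ := key a b c
    have hNq : (N : ℚ) ≠ 0 := by exact_mod_cast hN
    have hW0 : W ≠ 0 := by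
      intro h0
      rw [h0] at hW
      exact mul_ne_zero hw hNq (by rw [← hW]; norm_num)
    refine s73_int3 _ W A B C rfl hW0 ?_
    have : (W : ℚ) ^ 2 = 2 * (A : ℚ) ^ 2 + 6 * (B : ℚ) ^ 2 + 6 * (C : ℚ) ^ 2 := by
      rw [hW, hA, hB, hC, mul_pow, h]; ring
    exact_mod_cast this

end H367PE
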