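import Pool.Agent.H367R2.PE.Defs

set_option autoImplicit false

namespace H367PE

/-- even valuations at the primes `2 mod 3` -/
def sndNN (n : ℕ) : Prop := ∀ r : ℕ, r.Prime → r % 3 = 2 → Even (n.factorization r)

lemma snd_mod (n : ℕ) (hn : n ≠ 0) (h3 : ¬ 3 ∣ n) (h : sndNN n) : n % 3 = 1 := by
  have h1 : ((n : ℕ) : ZMod 3) = 1 := by
    have h2 : ((n.factorization.prod (fun p k => p ^ k) : ℕ) : ZMod 3) = 1 := by
      rw [Finsupp.prod, Nat.cast_prod]
      apply Finset.prod_eq_one
      intro p hp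
      have hpp : p.Prime := Nat.prime_of_mem_primeFactors (by simpa using hp)
      have hpn : p ∣ n := Nat.dvd_of_mem_primeFactors (by simpa using hp)
      have h3p : p % 3 ≠ 0 := by
        intro h0
        exact h3 ((Nat.dvd_of_mod_eq_zero h0).trans hpn)
      have hc : p % 3 = 1 ∨ p % 3 = 2 := by omega
      rcases hc with hc | hc
      · have : ((p : ℕ) : ZMod 3) = ((1 : ℕ) : ZMod 3) := by
          rw [ZMod.natCast_eq_natCast_iff]; exact hc
        push_cast
        rw [this]; simp
      · have : ((p : ℕ) : ZMod 3) = -1 := by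
          have h4 : ((p : ℕ) : ZMod 3) = ((2 : ℕ) : ZMod 3) := by
            rw [ZMod.natCast_eq_natCast_iff]; exact hc
          rw [h4]; decide
        push_cast
        rw [this]
        exact (h p hpp hc).neg_one_pow
    rw [Nat.prod_factorization_pow_eq_self hn] at h2
    exact h2
  have h5 : ((n : ℕ) : ZMod 3) = ((1 : ℕ) : ZMod 3) := by rw [h1]; simp
  rw [ZMod.natCast_eq_natCast_iff] at h5
  exact h5

lemma snd_nonres (r : ℕ) (hr : r.Prime) (h3 : r % 3 = 2) (h2 : r ≠ 2) (a b : ℤ)
    (h : (r : ℤ) ∣ a ^ 2 + 3 * b ^ 2) : (r : ℤ) ∣ b := by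
  have : Fact r.Prime := ⟨hr⟩
  by_contra hb
  have hb' : ((b : ℤ) : ZMod r) ≠ 0 := by
    rw [Ne, ZMod.intCast_zmod_eq_zero_iff_dvd]; exact hb
  have hab : ((a : ℤ) : ZMod r) ^ 2 + 3 * ((b : ℤ) : ZMod r) ^ 2 = 0 := by
    have := (ZMod.intCast_zmod_eq_zero_iff_dvd (a ^ 2 + 3 * b ^ 2) r).2 h
    push_cast at this
    exact this
  have h20 : (2 : ZMod r) ≠ 0 := by
    intro h0
    have : ((2 : ℕ) : ZMod r) = 0 := by exact_mod_cast h0
    rw [ZMod.natCast_eq_zero_iff] at this
    exact h2 ((Nat.prime_dvd_prime_iff_eq hr Nat.prime_two).1 this)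
  have h30 : (3 : ZMod r) ≠ 0 := by
    intro h0
    have : ((3 : ℕ) : ZMod r) = 0 := by exact_mod_cast h0
    rw [ZMod.natCast_eq_zero_iff] at this
    have := (Nat.prime_dvd_prime_iff_eq hr Nat.prime_three).1 this
    omega
  set x : ZMod r := (a : ZMod r) / (b : ZMod r) with hx
  have hx2 : x ^ 2 = -3 := by
    rw [hx, div_pow]
    field_simp
    linear_combination hab
  set o : ZMod r := (-1 + x) / 2 with ho
  have ho2 : o ^ 2 + o + 1 = 0 := by
    rw [ho]
    field_simp
    linear_combination hx2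
  have ho3 : o ^ 3 = 1 := by linear_combination (o - 1) * ho2
  have ho0 : o ≠ 0 := by
    intro h0; rw [h0] at ho3; simp at ho3
  have hfer := ZMod.pow_card_sub_one_eq_one ho0
  have hr1 : r - 1 = 3 * (r / 3) + 1 := by omega
  rw [hr1, pow_add, pow_mul, ho3, one_pow, one_mul, pow_one] at hfer
  rw [hfer] at ho2
  apply h30
  linear_combination ho2

lemma snd_form (r : ℕ) (hr : r.Prime) (h3 : r % 3 = 2) : ∀ (N : ℕ) (a b : ℤ), N ≠ 0 →
    (N : ℤ) = a ^ 2 + 3 * b ^ 2 → Even (N.factorization r) := by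
  intro N
  induction N using Nat.strong_induction_on with
  | _ N ih =>
    intro a b hN hab
    by_cases hrN : r ∣ N
    swap
    · rw [Nat.factorization_eq_zero_of_not_dvd hrN]; exact Even.zero
    have hrN' : (r : ℤ) ∣ a ^ 2 + 3 * b ^ 2 := by
      rw [← hab]; exact_mod_cast hrN
    have hrZ : Prime (r : ℤ) := Nat.prime_iff_prime_int.1 hr
    by_cases hb : (r : ℤ) ∣ b
    · have ha : (r : ℤ) ∣ a := by
        have : (r : ℤ) ∣ a ^ 2 := by
          have h4 : a ^ 2 = (a ^ 2 + 3 * b ^ 2) - 3 * b ^ 2 := by ring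
          rw [h4]
          exact dvd_sub hrN' (Dvd.dvd.mul_left (dvd_pow hb (by norm_num)) 3)
        exact hrZ.dvd_of_dvd_pow this
      obtain ⟨a', rfl⟩ := ha
      obtain ⟨b', rfl⟩ := hb
      obtain ⟨M, hM⟩ : ∃ M : ℕ, (M : ℤ) = a' ^ 2 + 3 * b' ^ 2 :=
        ⟨(a' ^ 2 + 3 * b' ^ 2).toNat, Int.toNat_of_nonneg (by positivity)⟩
      have hNM : N = r ^ 2 * M := by
        have : (N : ℤ) = (r : ℤ) ^ 2 * M := by rw [hab, hM]; ring
        exact_mod_cast this
      have hM0 : M ≠ 0 := by
        rintro rfl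
        simp at hNM; exact hN hNM
      have hlt : M < N := by
        rw [hNM]
        have : 1 < r ^ 2 := Nat.one_lt_pow (by norm_num) hr.one_lt
        nlinarith [Nat.pos_of_ne_zero hM0]
      have := ih M hlt a' b' hM0 hM
      rw [hNM, Nat.factorization_mul (pow_ne_zero _ hr.ne_zero) hM0, Nat.factorization_pow]
      simp only [Finsupp.coe_add, Finsupp.coe_smul, Pi.add_apply, Pi.smul_apply, smul_eq_mul,
        hr.factorization_self]
      exact Even.add (by decide) this
    · have hr2 : r = 2 := by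
        by_contra h2
        exact hb (snd_nonres r hr h3 h2 a b hrN')
      subst hr2
      have hbo : b % 2 = 1 := by
        rcases Int.emod_two_eq_zero_or_one b with h | h
        · exact absurd (Int.dvd_of_emod_eq_zero h) hb
        · exact h
      have hao : a % 2 = 1 := by
        rcases Int.emod_two_eq_zero_or_one a with h | h
        · exfalso
          obtain ⟨c, hc⟩ := Int.dvd_of_emod_eq_zero h
          obtain ⟨d, hd⟩ : ∃ d, b = 2 * d + 1 := ⟨b / 2, by omega⟩
          obtain ⟨e, he⟩ := hrN'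
          rw [hc, hd] at he
          have : (2 : ℤ) ∣ 1 := ⟨e - 2 * c ^ 2 - 6 * d ^ 2 - 6 * d - 1, by
            push_cast at he
            linarith⟩
          omega
        · exact h
      obtain ⟨c, hc⟩ : ∃ c, a = 2 * c + 1 := ⟨a / 2, by omega⟩
      obtain ⟨d, hd⟩ : ∃ d, b = 2 * d + 1 := ⟨b / 2, by omega⟩
      have hcc : ∃ e, c * (c + 1) = 2 * e := by
        obtain ⟨e, he⟩ := Int.even_mul_succ_self c
        exact ⟨e, by rw [he]; ring⟩
      have hdd : ∃ e, d * (d + 1) = 2 * e := by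
        obtain ⟨e, he⟩ := Int.even_mul_succ_self d
        exact ⟨e, by rw [he]; ring⟩
      obtain ⟨e, he⟩ := hcc
      obtain ⟨f, hf⟩ := hdd
      have hN4 : (N : ℤ) = 4 * (2 * e + 6 * f + 1) := by
        rw [hab, hc, hd]
        linear_combination 4 * he + 12 * hf
      obtain ⟨M, hM⟩ : ∃ M : ℕ, (M : ℤ) = 2 * e + 6 * f + 1 := by
        refine ⟨(2 * e + 6 * f + 1).toNat, Int.toNat_of_nonneg ?_⟩
        have : (0 : ℤ) ≤ N := by positivity
        linarith
      have hNM : N = 2 ^ 2 * M := by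
        have : (N : ℤ) = 2 ^ 2 * M := by rw [hN4, hM]; ring
        exact_mod_cast this
      have hM0 : M ≠ 0 := by
        rintro rfl
        simp at hNM; exact hN hNM
      have hMo : ¬ 2 ∣ M := by omega
      rw [hNM, Nat.factorization_mul (by norm_num) hM0, Nat.factorization_pow]
      simp only [Finsupp.coe_add, Finsupp.coe_smul, Pi.add_apply, Pi.smul_apply, smul_eq_mul,
        Nat.prime_two.factorization_self, Nat.factorization_eq_zero_of_not_dvd hMo]
      decide

lemma snd_F1 (m : ℕ) (hm : m ≠ 0) (h Z w : ℚ) (hh : h ≠ 0)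
    (he : (m : ℚ) * h ^ 2 = Z ^ 2 + 3 * w ^ 2) : sndNN m := by
  intro r hr h3
  set H : ℤ := h.num * Z.den * w.den with hH
  set A : ℤ := Z.num * h.den * w.den with hA
  set B : ℤ := w.num * h.den * Z.den with hB
  have hhd : (h.den : ℚ) ≠ 0 := by exact_mod_cast h.den_nz
  have hZd : (Z.den : ℚ) ≠ 0 := by exact_mod_cast Z.den_nz
  have hwd : (w.den : ℚ) ≠ 0 := by exact_mod_cast w.den_nz
  have e1 : (H : ℚ) = h * (h.den * Z.den * w.den) := by
    rw [hH]; push_cast
    have hx : (h.num : ℚ) = h * h.den := (Rat.mul_den_eq_num h).symm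
    rw [hx]; ring
  have e2 : (A : ℚ) = Z * (h.den * Z.den * w.den) := by
    rw [hA]; push_cast
    have hx : (Z.num : ℚ) = Z * Z.den := (Rat.mul_den_eq_num Z).symm
    rw [hx]; ring
  have e3 : (B : ℚ) = w * (h.den * Z.den * w.den) := by
    rw [hB]; push_cast
    have hx : (w.num : ℚ) = w * w.den := (Rat.mul_den_eq_num w).symm
    rw [hx]; ring
  have hH0 : H ≠ 0 := by
    intro h0
    rw [h0] at e1
    simp [hh, hhd, hZd, hwd] at e1
  have key : (m : ℤ) * H ^ 2 = A ^ 2 + 3 * B ^ 2 := by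
    have : (m : ℚ) * (H : ℚ) ^ 2 = (A : ℚ) ^ 2 + 3 * (B : ℚ) ^ 2 := by
      rw [e1, e2, e3]
      linear_combination (h.den * Z.den * w.den : ℚ) ^ 2 * he
    exact_mod_cast this
  have hN : ((m * H.natAbs ^ 2 : ℕ) : ℤ) = A ^ 2 + 3 * B ^ 2 := by
    push_cast
    rw [sq_abs]
    exact key
  have hHn : H.natAbs ≠ 0 := by simpa using hH0
  have h1 := snd_form r hr h3 (m * H.natAbs ^ 2) A B (mul_ne_zero hm (pow_ne_zero _ hHn)) hN
  rw [Nat.factorization_mul hm (pow_ne_zero _ hHn), Nat.factorization_pow] at h1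
  simp only [Finsupp.coe_add, Finsupp.coe_smul, Pi.add_apply, Pi.smul_apply, smul_eq_mul] at h1
  rw [Nat.even_add] at h1
  exact h1.2 (even_two_mul _)

/-- the part prime to 3 is 1 mod 3 -/
lemma snd_unit (i : ℕ) (s : ℤ) (hs : 0 < s) (h3 : ¬ (3 : ℤ) ∣ s) (n : ℕ)
    (hn : (n : ℤ) = 3 ^ i * s) (h : sndNN n) : s % 3 = 1 := by
  obtain ⟨k, rfl⟩ := Int.eq_ofNat_of_zero_le hs.le
  have hk0 : k ≠ 0 := by
    rintro rfl; simp at hs
  have hnk : n = 3 ^ i * k := by exact_mod_cast hn
  have h3k : ¬ 3 ∣ k := by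
    intro h0; apply h3; exact_mod_cast h0
  have hk : sndNN k := by
    intro r hr hr3
    have := h r hr hr3
    rw [hnk, Nat.factorization_mul (by positivity) hk0, Nat.factorization_pow] at this
    have h3r : (Nat.factorization 3) r = 0 := by
      apply Nat.factorization_eq_zero_of_not_dvd
      intro hd
      have := (Nat.prime_dvd_prime_iff_eq hr Nat.prime_three).1 hd
      omega
    simpa [h3r] using this
  have := snd_mod k hk0 h3k hk
  omega

lemma snd_split (n : ℕ) (hn : n ≠ 0) (h : sndNN n) : ∃ (i : ℕ) (s : ℤ), 0 < s ∧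
    (n : ℤ) = 3 ^ i * s ∧ s % 3 = 1 := by
  obtain ⟨i, s, hs, hns⟩ := Nat.exists_eq_pow_mul_and_not_dvd hn 3 (by norm_num)
  have hs0 : 0 < s := by
    rcases Nat.eq_zero_or_pos s with h0 | h0
    · exfalso; rw [h0] at hns; simp at hns; exact hn hns
    · exact h0
  refine ⟨i, s, by exact_mod_cast hs0, by rw [hns]; push_cast; rfl, ?_⟩
  apply snd_unit i s (by exact_mod_cast hs0) (by intro h0; exact hs (by exact_mod_cast h0)) n
    (by rw [hns]; push_cast; rfl) h

/-- the arithmetic core -/
lemma snd_core (P q : ℕ) (hP : 0 < P) (hq : 0 < q) (hcop : Nat.Coprime P q)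
    (hPN : sndNN P) (hqN : sndNN q) (h d f : ℚ) (hh : h ≠ 0)
    (he : 12 * ((8 * P - 3 * q) * (2 * q - 3 * P)) * h ^ 2 = d ^ 2 + 3 * f ^ 2) : False := by
  obtain ⟨i, s, hs, hPs, hs3⟩ := snd_split P hP.ne' hPN
  obtain ⟨j, t, ht, hqt, ht3⟩ := snd_split q hq.ne' hqN
  have hh2 : 0 < h ^ 2 := by positivity
  have hM0 : (0 : ℚ) ≤ (8 * P - 3 * q) * (2 * q - 3 * P) := by
    by_contra hlt
    push Not at hlt
    have : d ^ 2 + 3 * f ^ 2 < 0 := by
      rw [← he]
      have : 12 * (((8 : ℚ) * P - 3 * q) * (2 * q - 3 * P)) < 0 := by linarith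
      exact mul_neg_of_neg_of_pos this hh2
    have h2 : 0 ≤ d ^ 2 + 3 * f ^ 2 := by positivity
    linarith
  have hM0' : (0 : ℤ) ≤ (8 * P - 3 * q) * (2 * q - 3 * P) := by exact_mod_cast hM0
  have h31 : ¬ (3 : ℤ) ∣ 8 * s := by omega
  have h32 : ¬ (3 : ℤ) ∣ 2 * t := by omega
  have h33 : ¬ (3 : ℤ) ∣ s := by omega
  have h34 : ¬ (3 : ℤ) ∣ t := by omega
  -- comparing powers of three
  have huniq : ∀ (k l : ℕ) (x y : ℤ), (3 : ℤ) ^ k * x = 3 ^ l * y → ¬ (3 : ℤ) ∣ x →
      ¬ (3 : ℤ) ∣ y → x = y := by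
    intro k l x y hxy hx hy
    rcases lt_trichotomy k l with hkl | hkl | hkl
    · exfalso
      obtain ⟨c, rfl⟩ : ∃ c, l = k + 1 + c := ⟨l - k - 1, by omega⟩
      apply hx
      have h3k : (3 : ℤ) ^ k ≠ 0 := by positivity
      refine ⟨3 ^ c * y, ?_⟩
      apply mul_left_cancel₀ h3k
      rw [hxy]; ring
    · subst hkl
      have h3k : (3 : ℤ) ^ k ≠ 0 := by positivity
      exact mul_left_cancel₀ h3k hxy
    · exfalso
      obtain ⟨c, rfl⟩ : ∃ c, k = l + 1 + c := ⟨k - l - 1, by omega⟩
      apply hy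
      have h3k : (3 : ℤ) ^ l ≠ 0 := by positivity
      refine ⟨3 ^ c * x, ?_⟩
      apply mul_left_cancel₀ h3k
      rw [← hxy]; ring
  rcases hM0'.eq_or_lt with hz | hpos
  · rcases mul_eq_zero.1 hz.symm with h0 | h0
    · have h1 : (3 : ℤ) ^ i * (8 * s) = 3 ^ (j + 1) * t := by
        rw [pow_succ]
        linear_combination h0 - 8 * hPs + 3 * hqt
      have := huniq _ _ _ _ h1 h31 h34
      omega
    · have h1 : (3 : ℤ) ^ j * (2 * t) = 3 ^ (i + 1) * s := by
        rw [pow_succ]
        linear_combination h0 - 2 * hqt + 3 * hPs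
      have := huniq _ _ _ _ h1 h32 h33
      omega
  · -- the two factors
    rcases (mul_pos_iff.1 hpos) with ⟨hA, hB⟩ | ⟨hA, hB⟩
    · obtain ⟨A, hA'⟩ := Int.eq_ofNat_of_zero_le hA.le
      obtain ⟨B, hB'⟩ := Int.eq_ofNat_of_zero_le hB.le
      have hA0 : A ≠ 0 := by rintro rfl; simp at hA'; omega
      have hB0 : B ≠ 0 := by rintro rfl; simp at hB'; omega
      have hAq : (8 * (P : ℚ) - 3 * q) = A := by exact_mod_cast hA'
      have hBq : (2 * (q : ℚ) - 3 * P) = B := by exact_mod_cast hB'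
      have hN : sndNN (12 * (A * B)) := by
        apply snd_F1 (12 * (A * B)) (by positivity) h d f hh
        rw [← he, hAq, hBq]; push_cast; ring
      have hAB : sndNN (A * B) := by
        intro r hr h3
        have h1 := hN r hr h3
        rw [Nat.factorization_mul (by norm_num) (by positivity),
          show (12 : ℕ) = 2 ^ 2 * 3 by norm_num,
          Nat.factorization_mul (by norm_num) (by norm_num), Nat.factorization_pow] at h1
        have h3r : (Nat.factorization 3) r = 0 := by
          apply Nat.factorization_eq_zero_of_not_dvd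
          intro hd
          have := (Nat.prime_dvd_prime_iff_eq hr Nat.prime_three).1 hd
          omega
        simp only [Finsupp.coe_add, Finsupp.coe_smul, Pi.add_apply, Pi.smul_apply, smul_eq_mul,
          h3r, add_zero] at h1
        rw [Nat.even_add] at h1
        exact h1.1 (even_two_mul _)
      have hsep : ∀ r : ℕ, r.Prime → r % 3 = 2 → ¬ (r ∣ A ∧ r ∣ B) := by
        intro r hr h3 ⟨hrA, hrB⟩
        have hrA' : (r : ℤ) ∣ 8 * P - 3 * q := by rw [hA']; exact_mod_cast hrA
        have hrB' : (r : ℤ) ∣ 2 * q - 3 * P := by rw [hB']; exact_mod_cast hrB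
        have h7P : (r : ℤ) ∣ 7 * P := by
          have : (7 : ℤ) * P = 2 * (8 * P - 3 * q) + 3 * (2 * q - 3 * P) := by ring
          rw [this]
          exact dvd_add (Dvd.dvd.mul_left hrA' 2) (Dvd.dvd.mul_left hrB' 3)
        have h7q : (r : ℤ) ∣ 7 * q := by
          have : (7 : ℤ) * q = 3 * (8 * P - 3 * q) + 8 * (2 * q - 3 * P) := by ring
          rw [this]
          exact dvd_add (Dvd.dvd.mul_left hrA' 3) (Dvd.dvd.mul_left hrB' 8)
        have h7P' : r ∣ 7 * P := by exact_mod_cast h7P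
        have h7q' : r ∣ 7 * q := by exact_mod_cast h7q
        have hr7 : ¬ r ∣ 7 := by
          intro hd
          have := (Nat.prime_dvd_prime_iff_eq hr (by norm_num)).1 hd
          omega
        have hrP : r ∣ P := ((Nat.Prime.dvd_mul hr).1 h7P').resolve_left hr7
        have hrq : r ∣ q := ((Nat.Prime.dvd_mul hr).1 h7q').resolve_left hr7
        have := Nat.dvd_gcd hrP hrq
        rw [hcop] at this
        exact hr.one_lt.ne' (Nat.dvd_one.1 this)
      have hAN : sndNN A := by
        intro r hr h3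
        by_cases hrA : r ∣ A
        · have hrB : ¬ r ∣ B := fun hb => hsep r hr h3 ⟨hrA, hb⟩
          have h1 := hAB r hr h3
          rw [Nat.factorization_mul hA0 hB0] at h1
          simpa [Nat.factorization_eq_zero_of_not_dvd hrB] using h1
        · rw [Nat.factorization_eq_zero_of_not_dvd hrA]; exact Even.zero
      have hBN : sndNN B := by
        intro r hr h3
        by_cases hrB : r ∣ B
        · have hrA : ¬ r ∣ A := fun hb => hsep r hr h3 ⟨hb, hrB⟩
          have h1 := hAB r hr h3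
          rw [Nat.factorization_mul hA0 hB0] at h1
          simpa [Nat.factorization_eq_zero_of_not_dvd hrA] using h1
        · rw [Nat.factorization_eq_zero_of_not_dvd hrB]; exact Even.zero
      rcases lt_trichotomy i (j + 1) with hij | hij | hij
      · obtain ⟨c, hc⟩ : ∃ c, j + 1 = i + 1 + c := ⟨j - i, by omega⟩
        have e1 : (A : ℤ) = 3 ^ i * (8 * s - 3 ^ (1 + c) * t) := by
          have : (3 : ℤ) ^ (j + 1) = 3 ^ i * 3 ^ (1 + c) := by
            rw [hc, ← pow_add]; congr 1; ring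
          rw [← hA', hPs, hqt]
          rw [pow_succ] at this
          linear_combination (-t) * this
        have hpos1 : 0 < 8 * s - 3 ^ (1 + c) * t := by
          by_contra hle
          push Not at hle
          have h3i : (0 : ℤ) < 3 ^ i := by positivity
          have hAp : (0 : ℤ) < A := by exact_mod_cast Nat.pos_of_ne_zero hA0
          nlinarith
        have hmod : (8 * s - 3 ^ (1 + c) * t) % 3 = 2 := by
          have : (3 : ℤ) ^ (1 + c) * t = 3 * (3 ^ c * t) := by rw [pow_add]; ring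
          rw [this]; omega
        have := snd_unit i _ hpos1 (by omega) A e1 hAN
        omega
      · have e1 : (B : ℤ) = 3 ^ j * (2 * t - 9 * s) := by
          rw [← hB', hPs, hqt, hij, pow_succ]
          ring
        have hpos1 : 0 < 2 * t - 9 * s := by
          by_contra hle
          push Not at hle
          have h3i : (0 : ℤ) < 3 ^ j := by positivity
          have hAp : (0 : ℤ) < B := by exact_mod_cast Nat.pos_of_ne_zero hB0
          nlinarith
        have := snd_unit j _ hpos1 (by omega) B e1 hBN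
        omega
      · obtain ⟨c, hc⟩ : ∃ c, i = j + 1 + (1 + c) := ⟨i - j - 2, by omega⟩
        have e1 : (A : ℤ) = 3 ^ (j + 1) * (8 * (3 ^ (1 + c) * s) - t) := by
          rw [← hA', hPs, hqt, hc, pow_add, pow_succ]
          ring
        have hpos1 : 0 < 8 * (3 ^ (1 + c) * s) - t := by
          by_contra hle
          push Not at hle
          have h3i : (0 : ℤ) < 3 ^ (j + 1) := by positivity
          have hAp : (0 : ℤ) < A := by exact_mod_cast Nat.pos_of_ne_zero hA0
          nlinarith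
        have hmod : (8 * (3 ^ (1 + c) * s) - t) % 3 = 2 := by
          have : (3 : ℤ) ^ (1 + c) * s = 3 * (3 ^ c * s) := by rw [pow_add]; ring
          rw [this]; omega
        have := snd_unit (j + 1) _ hpos1 (by omega) A e1 hAN
        omega
    · have : (0 : ℤ) < q := by exact_mod_cast hq
      linarith

/-- the case `p` even -/
lemma snd_even (p q : ℕ) (hp : 0 < p) (hq : 0 < q) (hcop : Nat.Coprime p q) (h2 : 2 ∣ p)
    (hN : sndNN (6 * (p * q))) (h d f : ℚ) (hh : h ≠ 0)
    (he : 6 * ((4 * p - 3 * q) * (4 * q - 3 * p)) * h ^ 2 = d ^ 2 + 3 * f ^ 2) : False := by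
  obtain ⟨P, rfl⟩ := h2
  have hP : 0 < P := by omega
  have hq2 : ¬ 2 ∣ q := by
    intro h0
    have := Nat.dvd_gcd (dvd_mul_right 2 P) h0
    rw [hcop] at this
    omega
  have hcop' : Nat.Coprime P q := Nat.Coprime.coprime_mul_left hcop
  have hPq : sndNN (P * q) := by
    intro r hr h3
    have h1 := hN r hr h3
    rw [show 6 * (2 * P * q) = 2 ^ 2 * 3 * (P * q) by ring,
      Nat.factorization_mul (by norm_num) (by positivity),
      Nat.factorization_mul (by norm_num) (by norm_num), Nat.factorization_pow] at h1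
    have h3r : (Nat.factorization 3) r = 0 := by
      apply Nat.factorization_eq_zero_of_not_dvd
      intro hd
      have := (Nat.prime_dvd_prime_iff_eq hr Nat.prime_three).1 hd
      omega
    simp only [Finsupp.coe_add, Finsupp.coe_smul, Pi.add_apply, Pi.smul_apply, smul_eq_mul,
      h3r, add_zero] at h1
    rw [Nat.even_add] at h1
    exact h1.1 (even_two_mul _)
  have hsep : ∀ r : ℕ, r.Prime → ¬ (r ∣ P ∧ r ∣ q) := by
    intro r hr ⟨h1, h2⟩
    have := Nat.dvd_gcd h1 h2
    rw [hcop'] at this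
    exact hr.one_lt.ne' (Nat.dvd_one.1 this)
  have hPN : sndNN P := by
    intro r hr h3
    by_cases hrA : r ∣ P
    · have hrB : ¬ r ∣ q := fun hb => hsep r hr ⟨hrA, hb⟩
      have h1 := hPq r hr h3
      rw [Nat.factorization_mul hP.ne' hq.ne'] at h1
      simpa [Nat.factorization_eq_zero_of_not_dvd hrB] using h1
    · rw [Nat.factorization_eq_zero_of_not_dvd hrA]; exact Even.zero
  have hqN : sndNN q := by
    intro r hr h3
    by_cases hrB : r ∣ q
    · have hrA : ¬ r ∣ P := fun hb => hsep r hr ⟨hb, hrB⟩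
      have h1 := hPq r hr h3
      rw [Nat.factorization_mul hP.ne' hq.ne'] at h1
      simpa [Nat.factorization_eq_zero_of_not_dvd hrA] using h1
    · rw [Nat.factorization_eq_zero_of_not_dvd hrB]; exact Even.zero
  apply snd_core P q hP hq hcop' hPN hqN h d f hh
  rw [← he]; push_cast; ring

theorem t_SND : S_SND := by
  intro w hw ⟨X, Y, Z, d, f, h1, h2⟩
  have hpq : 0 < (X - Y) * (X + Y) := by
    have hw2 : 0 < w ^ 2 := by positivity
    nlinarith [sq_nonneg Z]
  set p := X - Y with hp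
  set q := X + Y with hq
  have hq0 : q ≠ 0 := by
    intro h0; rw [h0] at hpq; simp at hpq
  have hpos : 0 < p / q := by
    rw [div_eq_mul_inv]
    have : p * q⁻¹ = (p * q) * (q⁻¹) ^ 2 := by field_simp
    rw [this]
    have : q⁻¹ ≠ 0 := inv_ne_zero hq0
    positivity
  set p' : ℕ := (p / q).num.toNat with hp'
  set q' : ℕ := (p / q).den with hq'
  have hnum : 0 < (p / q).num := Rat.num_pos.2 hpos
  have hp'c : ((p' : ℕ) : ℤ) = (p / q).num := Int.toNat_of_nonneg hnum.le
  have hp'0 : 0 < p' := by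
    have : (0 : ℤ) < p' := by rw [hp'c]; exact hnum
    exact_mod_cast this
  have hq'0 : 0 < q' := (p / q).den_pos
  have hcop : Nat.Coprime p' q' := by
    have := (p / q).reduced
    rw [← hp'c] at this
    simpa using this
  have hq'q : (q' : ℚ) ≠ 0 := by exact_mod_cast hq'0.ne'
  set h : ℚ := q / q' with hh
  have hh0 : h ≠ 0 := div_ne_zero hq0 hq'q
  have eq' : q = h * q' := by rw [hh]; field_simp
  have ep' : p = h * p' := by
    have h3 : p / q = (p' : ℚ) / q' := by
      have h4 : ((p' : ℕ) : ℚ) = ((p / q).num : ℚ) := by rw [← hp'c]; push_cast; rfl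
      rw [h4, hq']
      exact (Rat.num_div_den (p / q)).symm
    have h5 : p = (p / q) * q := by field_simp
    rw [h5, h3, hh]; field_simp
  have hN : sndNN (6 * (p' * q')) := by
    apply snd_F1 _ (by positivity) h Z w hh0
    push_cast
    have : 6 * X ^ 2 - 6 * Y ^ 2 = 6 * (p * q) := by rw [hp, hq]; ring
    rw [← h1, this]
    conv_rhs => rw [ep', eq']
    ring
  have he : 6 * ((4 * (p' : ℚ) - 3 * q') * (4 * q' - 3 * p')) * h ^ 2 = d ^ 2 + 3 * f ^ 2 := by
    have : 6 * X ^ 2 - 294 * Y ^ 2 = 6 * ((4 * p - 3 * q) * (4 * q - 3 * p)) := by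
      rw [hp, hq]; ring
    rw [← h2, this]
    conv_rhs => rw [ep', eq']
    ring
  -- one of them is even
  have hev : 2 ∣ p' ∨ 2 ∣ q' := by
    by_contra hno
    push Not at hno
    have h5 := hN 2 Nat.prime_two (by norm_num)
    rw [show 6 * (p' * q') = 2 * (3 * (p' * q')) by ring,
      Nat.factorization_mul (by norm_num) (by positivity)] at h5
    have h6 : ¬ 2 ∣ 3 * (p' * q') := by
      intro h7
      rcases (Nat.Prime.dvd_mul Nat.prime_two).1 h7 with h8 | h8
      · omega
      · rcases (Nat.Prime.dvd_mul Nat.prime_two).1 h8 with h9 | h9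
        · exact hno.1 h9
        · exact hno.2 h9
    simp only [Finsupp.coe_add, Pi.add_apply, Nat.prime_two.factorization_self,
      Nat.factorization_eq_zero_of_not_dvd h6] at h5
    revert h5; decide
  rcases hev with hev | hev
  · exact snd_even p' q' hp'0 hq'0 hcop hev hN h d f hh0 he
  · apply snd_even q' p' hq'0 hp'0 hcop.symm hev (by rw [mul_comm q' p']; exact hN) h d f hh0
    rw [← he]; ring

end H367PE
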