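import Pool.Agent.H367R2.PE.Defs

/-!
Task TWO: `n = 2 mod 4` is a sum of three rational squares.
-/

set_option autoImplicit false

open ZMod NumberTheorySymbols

namespace H367PE

theorem two_prime (m : ℕ) (hm : m % 2 = 1) : ∃ t : ℕ, t.Prime ∧ 2 * m < t ∧ m ∣ t + 1 ∧
    ((m % 4 = 1 ∧ t % 8 = 1) ∨ (m % 4 = 3 ∧ t % 8 = 5)) := by
  have hcop : Nat.Coprime 8 m := by
    have : Nat.Coprime (2 ^ 3) m := Nat.Coprime.pow_left 3
      ((Nat.coprime_two_left).2 (Nat.odd_iff.2 hm))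
    simpa using this
  obtain ⟨r, hr⟩ : ∃ r : ℕ, (m % 4 = 1 ∧ r = 1) ∨ (m % 4 = 3 ∧ r = 5) := by
    have : m % 4 = 1 ∨ m % 4 = 3 := by omega
    rcases this with h | h
    · exact ⟨1, Or.inl ⟨h, rfl⟩⟩
    · exact ⟨5, Or.inr ⟨h, rfl⟩⟩
  obtain ⟨k, hk1, hk2⟩ := Nat.chineseRemainder hcop r (m - 1)
  have hk8 : k % 8 = r := by
    have h1 : k % 8 = r % 8 := hk1
    rcases hr with ⟨-, rfl⟩ | ⟨-, rfl⟩ <;> simpa using h1
  have hkm : m ∣ k + 1 := by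
    have h1 : k + 1 ≡ (m - 1) + 1 [MOD m] := Nat.ModEq.add_right 1 hk2
    have h2 : (m - 1) + 1 = m := by omega
    rw [h2] at h1
    have h3 : k + 1 ≡ 0 [MOD m] := h1.trans (by simp [Nat.ModEq])
    exact (Nat.modEq_zero_iff_dvd).1 h3
  have hc : Nat.Coprime k (8 * m) := by
    apply Nat.Coprime.mul_right
    · have : Nat.Coprime k (2 ^ 3) := by
        apply Nat.Coprime.pow_right 3
        rw [Nat.coprime_two_right]
        rw [Nat.odd_iff]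
        rcases hr with ⟨-, h⟩ | ⟨-, h⟩ <;> omega
      simpa using this
    · have h1 : Nat.gcd k m ∣ k + 1 := (Nat.gcd_dvd_right k m).trans hkm
      have h2 : Nat.gcd k m ∣ k := Nat.gcd_dvd_left k m
      have h3 : Nat.gcd k m ∣ 1 := (Nat.dvd_add_right h2).1 h1
      exact Nat.dvd_one.1 h3
  obtain ⟨t, ht1, ht2, ht3⟩ := Nat.forall_exists_prime_gt_and_modEq (2 * m) (q := 8 * m) (a := k)
    (by omega) hc
  refine ⟨t, ht2, ht1, ?_, ?_⟩
  · have h1 : t ≡ k [MOD m] := ht3.of_mul_left 8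
    have h2 : t + 1 ≡ k + 1 [MOD m] := Nat.ModEq.add_right 1 h1
    exact (h2.dvd_iff dvd_rfl).2 hkm
  · have h1 : t ≡ k [MOD 8] := ht3.of_mul_right m
    have h2 : t % 8 = k % 8 := h1
    rw [h2, hk8]
    exact hr

theorem two_jac (m t : ℕ) (ht : m ∣ t + 1)
    (hr : (m % 4 = 1 ∧ t % 8 = 1) ∨ (m % 4 = 3 ∧ t % 8 = 5)) :
    jacobiSym ((2 * m : ℕ) : ℤ) t = 1 := by
  have hodd : Odd m := by rw [Nat.odd_iff]; omega
  have htodd : Odd t := by rw [Nat.odd_iff]; omega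
  have ht4 : t % 4 = 1 := by omega
  rw [Nat.cast_mul, jacobiSym.mul_left, Nat.cast_ofNat, jacobiSym.at_two htodd,
    ← jacobiSym.quadratic_reciprocity_one_mod_four ht4 hodd]
  have h1 : jacobiSym (t : ℤ) m = jacobiSym (-1) m := by
    apply jacobiSym.mod_left'
    have h2 : (m : ℤ) ∣ (t : ℤ) - (-1) := by
      have : (m : ℤ) ∣ ((t + 1 : ℕ) : ℤ) := by exact_mod_cast ht
      simpa using this
    exact (Int.ModEq.symm ((Int.modEq_iff_dvd).2 h2))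
  rw [h1, jacobiSym.at_neg_one hodd]
  rcases hr with ⟨h2, h3⟩ | ⟨h2, h3⟩
  · rw [ZMod.χ₈_nat_eq_if_mod_eight, ZMod.χ₄_nat_one_mod_four h2]
    have : t % 2 ≠ 0 := by omega
    simp [h3, this]
  · rw [ZMod.χ₈_nat_eq_if_mod_eight, ZMod.χ₄_nat_three_mod_four h2]
    have : t % 2 ≠ 0 := by omega
    simp [h3, this]

theorem t_TWO (hL : S_LEG) : S_TWO := by
  intro n hn
  obtain ⟨m, hm, rfl⟩ : ∃ m, m % 2 = 1 ∧ n = 2 * m := ⟨n / 2, by omega, by omega⟩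
  obtain ⟨t, htp, htn, htm, hr⟩ := two_prime m hm
  have hJ := two_jac m t htm hr
  have : Fact t.Prime := ⟨htp⟩
  have hnd : ¬ t ∣ 2 * m := fun h => by
    have := Nat.le_of_dvd (by omega) h
    omega
  have hne : (((2 * m : ℕ) : ℤ) : ZMod t) ≠ 0 := by
    rw [Int.cast_natCast, Ne, ZMod.natCast_eq_zero_iff]
    exact hnd
  rw [← jacobiSym.legendreSym.to_jacobiSym, legendreSym.eq_one_iff _ hne] at hJ
  obtain ⟨w, hw⟩ := hJ
  have hcop : IsCoprime (((2 * m : ℕ)) : ℤ) (t : ℤ) := by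
    rw [Nat.isCoprime_iff_coprime]
    exact ((Nat.Prime.coprime_iff_not_dvd htp).2 hnd).symm
  have k1 : ∃ k : ℤ, ((2 * m : ℕ) : ℤ) ∣ k ^ 2 + (t : ℤ) := by
    refine ⟨1, ?_⟩
    have h1 : 2 * m ∣ t + 1 := by
      apply Nat.Coprime.mul_dvd_of_dvd_of_dvd
      · exact (Nat.coprime_two_left).2 (Nat.odd_iff.2 hm)
      · omega
      · exact htm
    have : ((2 * m : ℕ) : ℤ) ∣ ((t + 1 : ℕ) : ℤ) := by exact_mod_cast h1
    rw [one_pow, add_comm]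
    simpa using this
  have k2 : ∃ w : ℤ, (t : ℤ) ∣ w ^ 2 - ((2 * m : ℕ) : ℤ) := by
    obtain ⟨w', rfl⟩ := ZMod.intCast_surjective w
    refine ⟨w', ?_⟩
    rw [← ZMod.intCast_zmod_eq_zero_iff_dvd]
    rw [Int.cast_sub, Int.cast_pow, hw]
    ring
  obtain ⟨x, y, z, hy, hz⟩ := hL ((2 * m : ℕ) : ℤ) t (by exact_mod_cast (by omega : 0 < 2 * m))
    (by exact_mod_cast htp.pos) hcop k1 k2
  obtain ⟨e, f, hef⟩ := Nat.Prime.sq_add_sq (p := t) (by omega)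
  have hef' : (e : ℚ) ^ 2 + (f : ℚ) ^ 2 = t := by exact_mod_cast hef
  have hy' : (y : ℚ) ≠ 0 := by exact_mod_cast hy
  have hz' : (z : ℚ) ^ 2 + t * (x : ℚ) ^ 2 = ((2 * m : ℕ) : ℚ) * (y : ℚ) ^ 2 := by
    exact_mod_cast hz
  refine ⟨z / y, e * x / y, f * x / y, ?_⟩
  rw [div_pow, div_pow, div_pow, ← add_div, ← add_div, div_eq_iff (pow_ne_zero 2 hy'), ← hz',
    ← hef']
  ring

end H367PE
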