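import Pool.Agent.H367R2.PE.Defs

/-!
Primes `11 mod 24` are of the form `9 u² + 2 v²`.
-/

set_option autoImplicit false

namespace H367PE

private theorem uv_thue (l : ℕ) (hl : l.Prime) (h8 : l % 8 = 3) :
    ∃ X Z : ℤ, (l : ℤ) = X ^ 2 + 2 * Z ^ 2 := by
  have : Fact l.Prime := ⟨hl⟩
  have hl2 : l ≠ 2 := by omega
  obtain ⟨k, hk⟩ := (ZMod.exists_sq_eq_neg_two_iff hl2).2 (Or.inr h8)
  set s := Nat.sqrt l with hs
  have hs1 : l < (s + 1) * (s + 1) := Nat.lt_succ_sqrt l
  have hs2 : s * s ≤ l := Nat.sqrt_le l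
  have hs3 : s * s ≠ l := by
    intro h
    have : ¬ (s * s).Prime := by
      intro hp
      have h1 : s ∣ s * s := Dvd.intro _ rfl
      rcases (Nat.dvd_prime hp).1 h1 with h2 | h2
      · rw [h2] at hp
        exact absurd hp (by norm_num)
      · have hs0 : s ≠ 0 := by
          intro h0
          rw [h0] at hp
          exact absurd hp (by norm_num)
        have h3 : s = 1 := by
          have h4 : s * 1 = s * s := by omega
          exact (Nat.eq_of_mul_eq_mul_left (Nat.pos_of_ne_zero hs0) h4).symm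
        rw [h3] at hp
        exact absurd hp (by norm_num)
    rw [h] at this
    exact this hl
  have hs4 : s * s < l := lt_of_le_of_ne hs2 hs3
  have hcard : (Finset.univ : Finset (ZMod l)).card <
      ((Finset.range (s + 1)) ×ˢ (Finset.range (s + 1))).card := by
    rw [Finset.card_univ, ZMod.card, Finset.card_product, Finset.card_range]
    exact hs1
  obtain ⟨⟨a1, b1⟩, h1, ⟨a2, b2⟩, h2, hne, heq⟩ :=
    Finset.exists_ne_map_eq_of_card_lt_of_maps_to hcard
      (f := fun ab : ℕ × ℕ => (ab.1 : ZMod l) - k * (ab.2 : ZMod l))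
      (fun _ _ => Finset.mem_coe.2 (Finset.mem_univ _))
  simp only [Finset.mem_product, Finset.mem_range] at h1 h2
  obtain ⟨ha1, hb1⟩ := h1
  obtain ⟨ha2, hb2⟩ := h2
  set X : ℤ := (a1 : ℤ) - a2 with hX
  set Z : ℤ := (b1 : ℤ) - b2 with hZ
  have hXZ : ((X : ℤ) : ZMod l) = k * ((Z : ℤ) : ZMod l) := by
    rw [hX, hZ]
    push_cast
    have h3 : (a1 : ZMod l) - k * (b1 : ZMod l) = (a2 : ZMod l) - k * (b2 : ZMod l) := heq
    linear_combination h3
  have hdvd : (l : ℤ) ∣ X ^ 2 + 2 * Z ^ 2 := by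
    rw [← ZMod.intCast_zmod_eq_zero_iff_dvd]
    push_cast
    rw [hXZ]
    linear_combination (-(Z : ZMod l) ^ 2) * hk
  have hX2 : X ^ 2 ≤ (s : ℤ) ^ 2 := by
    apply sq_le_sq'
    · omega
    · omega
  have hZ2 : Z ^ 2 ≤ (s : ℤ) ^ 2 := by
    apply sq_le_sq'
    · omega
    · omega
  have hs5 : (s : ℤ) ^ 2 < l := by
    rw [sq]
    exact_mod_cast hs4
  have hpos : 0 < X ^ 2 + 2 * Z ^ 2 := by
    rcases eq_or_ne X 0 with h0 | h0
    · rcases eq_or_ne Z 0 with h0' | h0'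
      · exfalso
        apply hne
        have e1 : a1 = a2 := by omega
        have e2 : b1 = b2 := by omega
        rw [e1, e2]
      · have := sq_pos_of_ne_zero h0'
        nlinarith [sq_nonneg X]
    · have := sq_pos_of_ne_zero h0
      nlinarith [sq_nonneg Z]
  obtain ⟨c, hc⟩ := hdvd
  have hl0 : (0 : ℤ) < l := by exact_mod_cast hl.pos
  have hc0 : 0 < c := by
    by_contra hcn
    have : (l : ℤ) * c ≤ 0 := mul_nonpos_of_nonneg_of_nonpos hl0.le (by omega)
    omega
  have hc3 : c < 3 := by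
    by_contra hcn
    have h3 : (l : ℤ) * 3 ≤ l * c := mul_le_mul_of_nonneg_left (by omega) hl0.le
    omega
  have hc12 : c = 1 ∨ c = 2 := by omega
  rcases hc12 with h | h
  · refine ⟨X, Z, ?_⟩
    rw [h] at hc
    omega
  · rw [h] at hc
    have hXe : Even X := by
      have h4 : Even (X ^ 2) := ⟨(l : ℤ) - Z ^ 2, by omega⟩
      exact (Int.even_pow.1 h4).1
    obtain ⟨t, ht⟩ := hXe
    refine ⟨Z, t, ?_⟩
    rw [ht] at hc
    nlinarith

theorem t_UV : S_UV := by
  intro l hl h24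
  obtain ⟨X, Z, h⟩ := uv_thue l hl (by omega)
  have h3 : (3 : ℤ) ∣ X := by
    have hl3 : ((l : ℕ) : ℤ) % 3 = 2 := by omega
    rw [h] at hl3
    rcases (by omega : X % 3 = 0 ∨ X % 3 = 1 ∨ X % 3 = 2) with hx | hx | hx
    · exact Int.dvd_of_emod_eq_zero hx
    · exfalso
      rcases (by omega : Z % 3 = 0 ∨ Z % 3 = 1 ∨ Z % 3 = 2) with hz | hz | hz <;>
        simp [pow_two, Int.add_emod, Int.mul_emod, hx, hz] at hl3
    · exfalso
      rcases (by omega : Z % 3 = 0 ∨ Z % 3 = 1 ∨ Z % 3 = 2) with hz | hz | hz <;>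
        simp [pow_two, Int.add_emod, Int.mul_emod, hx, hz] at hl3
  obtain ⟨u, hu⟩ := h3
  refine ⟨u, Z, ?_⟩
  rw [h, hu]
  ring

end H367PE
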